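import Pool.Agent.LibRS5.Prob

set_option autoImplicit false

/-!
# Almost sure convergence
-/

namespace Pool.RandomSigns

open Finset MeasureTheory ProbabilityTheory Filter Topology

variable {Ω : Type*} [MeasurableSpace Ω] {P : Measure Ω} [IsProbabilityMeasure P]
  {E : ℕ → Set Ω}

/-- The primes in `(log y, y]`. -/
noncomputable def win (y : ℕ) : Finset ℕ := (Icc 1 y).filter (fun p => p.Prime ∧ Real.log y < p)

lemma prod_win_le (y : ℕ) : (∏ p ∈ win y, (p : ℝ)) ≤ 4 ^ y := by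
  have h1 : ∏ p ∈ win y, p ≤ primorial y := by
    unfold primorial
    apply prod_le_prod_of_subset_of_one_le'
    · intro p hp
      unfold win at hp
      rw [mem_filter, mem_Icc] at hp
      rw [mem_filter, mem_range]
      exact ⟨by omega, hp.2.1⟩
    · intro p hp _
      exact (mem_filter.mp hp).2.one_lt.le
  have h2 := h1.trans (primorial_le_four_pow y)
  have h3 : ((∏ p ∈ win y, p : ℕ) : ℝ) ≤ ((4 ^ y : ℕ) : ℝ) := Nat.cast_le.mpr h2
  push_cast at h3
  exact h3

lemma prob_bound (hE : ∀ p, MeasurableSet (E p))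
    (hind : iIndepSet (fun p : Nat.Primes => E p) P)
    (hwin : Tendsto (fun y : ℕ => ∑ p ∈ win y, mm P E p / p) atTop atTop)
    {a : ℕ} (ha : 0 < a) {B : Finset ℕ} (hB : B.Nonempty) (D : Finset ℕ) {t : ℕ} (ht : 0 < t)
    {ε : ℝ} (hε : 0 < ε) :
    ∀ᶠ i : ℕ in atTop, P.real {ω | ε * ((2 ^ i * t : ℕ) : ℝ) ≤ |(S (rnd E ω) a B D (2 ^ i * t) : ℝ)|} ≤
      2 * Real.exp 4 * 64 / (i : ℝ) ^ 2 := by
  set c : ℕ := a + B.sup id + 2 * B.card + 3 with hc
  have hdiv4 : Tendsto (fun i : ℕ => i / 4) atTop atTop :=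
    Nat.tendsto_div_const_atTop (by norm_num)
  have e1 := (hwin.comp hdiv4).eventually_ge_atTop (2 * Real.log (2 / ε) + 4)
  have e2 : ∀ᶠ i : ℕ in atTop, (c : ℝ) ≤ Real.log ((i / 4 : ℕ) : ℝ) :=
    (Real.tendsto_log_atTop.comp (tendsto_natCast_atTop_atTop.comp hdiv4)).eventually_ge_atTop _
  have e3 : ∀ᶠ i : ℕ in atTop, (2 / ε) ^ 2 * Real.exp 4 ≤ (2 : ℝ) ^ i :=
    (tendsto_pow_atTop_atTop_of_one_lt (by norm_num : (1 : ℝ) < 2)).eventually_ge_atTop _
  filter_upwards [e1, e2, e3, eventually_ge_atTop 8] with i h1 h2 h3 h4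
  simp only [Function.comp] at h1
  set y : ℕ := i / 4 with hy
  have hy8 : (i : ℝ) / 8 ≤ y := by
    have : i ≤ 8 * y := by omega
    have h5 : (i : ℝ) ≤ 8 * y := by exact_mod_cast this
    linarith
  have hi0 : (0 : ℝ) < i := by
    have : 0 < i := by omega
    exact_mod_cast this
  have hy0 : (0 : ℝ) < y := by linarith
  have hc3 : (3 : ℝ) ≤ c := by
    have : 3 ≤ c := by omega
    exact_mod_cast this
  set r : ℕ := ⌊Real.log y / 2⌋₊ with hr
  have hr1 : (r : ℝ) ≤ Real.log y / 2 := Nat.floor_le (by linarith)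
  have hr2 : Real.log y / 2 < r + 1 := Nat.lt_floor_add_one _
  have hr0 : 1 ≤ r := by
    rw [hr, Nat.one_le_floor_iff]
    linarith
  set X : ℕ := 2 ^ i * t with hX
  have hXpos : 0 < X := by positivity
  have hX0 : (0 : ℝ) < X := by exact_mod_cast hXpos
  have hwp : ∀ p ∈ win y, p.Prime := fun p hp => (mem_filter.mp hp).2.1
  have hwl : ∀ p ∈ win y, Real.log y < p := fun p hp => (mem_filter.mp hp).2.2
  have hwc : ∀ p ∈ win y, c < p := by
    intro p hp
    have h5 : (c : ℝ) < p := lt_of_le_of_lt h2 (hwl p hp)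
    exact_mod_cast h5
  have hm := master hE hind ha hB D (win y) r hwp
    (fun p hp hd => by
      have := Nat.le_of_dvd ha hd
      have := hwc p hp
      omega)
    (fun p hp b hb => by
      have h2 : b ≤ B.sup id := le_sup (f := id) hb
      have := hwc p hp
      omega)
    (fun p hp => by have := hwc p hp; omega)
    (fun p hp => by
      have h5 : ((2 * r : ℕ) : ℝ) < p := by
        push_cast
        linarith [hwl p hp]
      exact (by exact_mod_cast h5 : 2 * r < p).le) X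
  -- Markov
  have hmarkov := mul_meas_ge_le_integral_of_nonneg (μ := P)
    (f := fun ω => (S (rnd E ω) a B D X : ℝ) ^ (2 * r))
    (by filter_upwards with ω; exact (even_two_mul r).pow_nonneg _)
    (S_pow_int hE ha B D X (2 * r)) ((ε * X) ^ (2 * r))
  have hεX : (0 : ℝ) < (ε * X) ^ (2 * r) := by positivity
  have hsub : {ω | ε * (X : ℝ) ≤ |(S (rnd E ω) a B D X : ℝ)|} ⊆
      {ω | (ε * (X : ℝ)) ^ (2 * r) ≤ (S (rnd E ω) a B D X : ℝ) ^ (2 * r)} := by
    intro ω hω
    simp only [Set.mem_ofPred_eq] at hω ⊢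
    rw [← Even.pow_abs (even_two_mul r) (S (rnd E ω) a B D X : ℝ)]
    gcongr
  have hle : P.real {ω | ε * (X : ℝ) ≤ |(S (rnd E ω) a B D X : ℝ)|} ≤
      P.real {ω | (ε * (X : ℝ)) ^ (2 * r) ≤ (S (rnd E ω) a B D X : ℝ) ^ (2 * r)} :=
    measureReal_mono hsub
  set H : ℝ := ∑ p ∈ win y, mm P E p / p with hH
  set M : ℝ := ∏ p ∈ win y, (p : ℝ) with hM
  have hM0 : 0 ≤ M := prod_nonneg (fun p _ => Nat.cast_nonneg p)
  have hM2 : M ^ 2 ≤ X := by
    have h5 : M ≤ 4 ^ y := prod_win_le y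
    calc M ^ 2 ≤ (4 ^ y) ^ 2 := by gcongr
      _ = (2 : ℝ) ^ (4 * y) := by
        rw [← pow_mul, show (4 : ℝ) = 2 ^ 2 by norm_num, ← pow_mul]
        congr 1
        ring
      _ ≤ 2 ^ i := by
        apply pow_le_pow_right₀ (by norm_num)
        omega
      _ ≤ X := by
        rw [hX]
        push_cast
        have : (1 : ℝ) ≤ t := by exact_mod_cast ht
        exact le_mul_of_one_le_right (by positivity) this
  have hexpr : Real.exp (-(4 * (r : ℝ))) ≤ Real.exp 4 * 64 / (i : ℝ) ^ 2 := by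
    have h5 : Real.exp (-(4 * (r : ℝ))) ≤ Real.exp (4 - 2 * Real.log y) := by
      apply Real.exp_le_exp.mpr
      linarith
    refine h5.trans ?_
    rw [Real.exp_sub]
    have h6 : Real.exp (2 * Real.log y) = (y : ℝ) ^ 2 := by
      rw [show (2 : ℝ) * Real.log y = Real.log y + Real.log y by ring, Real.exp_add,
        Real.exp_log hy0]
      ring
    rw [h6]
    rw [div_le_div_iff₀ (by positivity) (by positivity)]
    have h7 : (i : ℝ) ^ 2 ≤ 64 * y ^ 2 := by nlinarith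
    have h8 := Real.exp_pos 4
    nlinarith
  -- first part
  have hA : (2 / ε) ^ (2 * r) * Real.exp (-(r * H)) ≤ Real.exp (-(4 * (r : ℝ))) := by
    have h5 : (2 / ε) ^ (2 * r) = Real.exp (2 * r * Real.log (2 / ε)) := by
      rw [show (2 : ℝ) * r * Real.log (2 / ε) = ((2 * r : ℕ) : ℝ) * Real.log (2 / ε) by
        push_cast; ring, Real.exp_nat_mul, Real.exp_log (by positivity)]
    rw [h5, ← Real.exp_add]
    apply Real.exp_le_exp.mpr
    have h6 : (0 : ℝ) ≤ r := Nat.cast_nonneg r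
    nlinarith
  have hB : (2 / ε) ^ (2 * r) * (M / X) ^ (2 * r) ≤ Real.exp (-(4 * (r : ℝ))) := by
    have h5 : (2 / ε) ^ (2 * r) * (M / X) ^ (2 * r) = ((2 / ε) ^ 2 * (M ^ 2 / X ^ 2)) ^ r := by
      rw [pow_mul, pow_mul, ← mul_pow]
      congr 2
      rw [div_pow M]
    have h6 : Real.exp (-(4 * (r : ℝ))) = Real.exp (-4) ^ r := by
      rw [← Real.exp_nat_mul]
      congr 1
      ring
    rw [h5, h6]
    have h7 : (2 / ε) ^ 2 * (M ^ 2 / X ^ 2) ≤ Real.exp (-4) := by
      have h8 : M ^ 2 / (X : ℝ) ^ 2 ≤ 1 / X := by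
        rw [div_le_div_iff₀ (by positivity) hX0]
        nlinarith
      have h9 : (1 : ℝ) / X ≤ 1 / 2 ^ i := by
        apply one_div_le_one_div_of_le (by positivity)
        rw [hX]
        push_cast
        have : (1 : ℝ) ≤ t := by exact_mod_cast ht
        exact le_mul_of_one_le_right (by positivity) this
      calc (2 / ε) ^ 2 * (M ^ 2 / X ^ 2) ≤ (2 / ε) ^ 2 * (1 / 2 ^ i) :=
            mul_le_mul_of_nonneg_left (h8.trans h9) (by positivity)
        _ ≤ Real.exp (-4) := by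
            rw [mul_one_div, div_le_iff₀ (by positivity), Real.exp_neg]
            rw [inv_mul_eq_div, le_div_iff₀ (Real.exp_pos 4)]
            exact h3
    gcongr
  have hfin : (ε * X) ^ (2 * r) * P.real {ω | ε * (X : ℝ) ≤ |(S (rnd E ω) a B D X : ℝ)|} ≤
      (ε * X) ^ (2 * r) * (2 * Real.exp 4 * 64 / (i : ℝ) ^ 2) := by
    calc (ε * X) ^ (2 * r) * P.real {ω | ε * (X : ℝ) ≤ |(S (rnd E ω) a B D X : ℝ)|}
        ≤ (ε * X) ^ (2 * r) *
          P.real {ω | (ε * (X : ℝ)) ^ (2 * r) ≤ (S (rnd E ω) a B D X : ℝ) ^ (2 * r)} := by gcongr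
      _ ≤ ∫ ω, (S (rnd E ω) a B D X : ℝ) ^ (2 * r) ∂P := hmarkov
      _ ≤ 2 ^ (2 * r) * ((X : ℝ) ^ (2 * r) * Real.exp (-(r * H)) + M ^ (2 * r)) := hm
      _ = (ε * X) ^ (2 * r) * ((2 / ε) ^ (2 * r) * Real.exp (-(r * H)) +
            (2 / ε) ^ (2 * r) * (M / X) ^ (2 * r)) := by
          have h5 : (ε * (X : ℝ)) ^ (2 * r) * (2 / ε) ^ (2 * r) = 2 ^ (2 * r) * X ^ (2 * r) := by
            rw [← mul_pow, ← mul_pow]
            congr 1
            field_simp
          have h6 : (X : ℝ) ^ (2 * r) * (M / X) ^ (2 * r) = M ^ (2 * r) := by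
            rw [← mul_pow]
            congr 1
            field_simp
          calc 2 ^ (2 * r) * ((X : ℝ) ^ (2 * r) * Real.exp (-(r * H)) + M ^ (2 * r))
              = 2 ^ (2 * r) * X ^ (2 * r) * Real.exp (-(r * H)) + 2 ^ (2 * r) * M ^ (2 * r) := by ring
            _ = 2 ^ (2 * r) * X ^ (2 * r) * Real.exp (-(r * H)) +
                  2 ^ (2 * r) * X ^ (2 * r) * (M / X) ^ (2 * r) := by
                rw [mul_assoc (2 ^ (2 * r)) _ ((M / X) ^ (2 * r)), h6]
            _ = _ := by rw [← h5]; ring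
      _ ≤ (ε * X) ^ (2 * r) * (2 * Real.exp 4 * 64 / (i : ℝ) ^ 2) := by
          have h5 : 2 * Real.exp 4 * 64 / (i : ℝ) ^ 2 = 2 * (Real.exp 4 * 64 / (i : ℝ) ^ 2) := by ring
          rw [h5]
          gcongr
          linarith
  exact le_of_mul_le_mul_left hfin hεX

lemma as_sub (hE : ∀ p, MeasurableSet (E p))
    (hind : iIndepSet (fun p : Nat.Primes => E p) P)
    (hwin : Tendsto (fun y : ℕ => ∑ p ∈ win y, mm P E p / p) atTop atTop)
    {a : ℕ} (ha : 0 < a) {B : Finset ℕ} (hB : B.Nonempty) (D : Finset ℕ) {t : ℕ} (ht : 0 < t)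
    {ε : ℝ} (hε : 0 < ε) :
    ∀ᵐ ω ∂P, ∀ᶠ i : ℕ in atTop,
      |(S (rnd E ω) a B D (2 ^ i * t) : ℝ)| < ε * ((2 ^ i * t : ℕ) : ℝ) := by
  set s : ℕ → Set Ω := fun i =>
    {ω | ε * ((2 ^ i * t : ℕ) : ℝ) ≤ |(S (rnd E ω) a B D (2 ^ i * t) : ℝ)|} with hs
  have hsum : Summable (fun i => P.real (s i)) := by
    have h1 : Summable (fun i : ℕ => 2 * Real.exp 4 * 64 / (i : ℝ) ^ 2) := by
      have h2 := (Real.summable_one_div_nat_pow (p := 2)).mpr (by norm_num)
      have h3 := h2.mul_left (2 * Real.exp 4 * 64)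
      refine h3.congr (fun i => ?_)
      ring
    apply h1.of_norm_bounded_eventually_nat
    filter_upwards [prob_bound hE hind hwin ha hB D ht hε] with i hi
    rw [Real.norm_eq_abs, abs_of_nonneg measureReal_nonneg]
    exact hi
  have htop : (∑' i, P (s i)) ≠ ⊤ := by
    have h1 := hsum.tsum_ofReal_ne_top
    have h2 : ∀ i, ENNReal.ofReal (P.real (s i)) = P (s i) := fun i =>
      ENNReal.ofReal_toReal (measure_ne_top P _)
    simpa [h2] using h1
  filter_upwards [ae_eventually_notMem htop] with ω hω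
  filter_upwards [hω] with i hi
  rw [hs] at hi
  simpa using hi

/-- Every instance of the problem, with the signs at the primes in `R` changed. -/
def AllInst (R : Set ℕ) : Prop :=
  ∀ a : ℕ, 0 < a → ∀ B D : Finset ℕ, B.Nonempty →
    Tendsto (fun x : ℕ => (S R a B D x : ℝ) / x) atTop (𝓝 0)

theorem almost_sure (hE : ∀ p, MeasurableSet (E p))
    (hind : iIndepSet (fun p : Nat.Primes => E p) P)
    (hwin : Tendsto (fun y : ℕ => ∑ p ∈ win y, mm P E p / p) atTop atTop) :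
    ∀ᵐ ω ∂P, AllInst (rnd E ω) := by
  have h1 : ∀ᵐ ω ∂P, ∀ a : ℕ, ∀ B : Finset ℕ, ∀ D : Finset ℕ, ∀ t : ℕ, ∀ l : ℕ,
      0 < a → B.Nonempty → 0 < t → ∀ᶠ i : ℕ in atTop,
        |(S (rnd E ω) a B D (2 ^ i * t) : ℝ)| < (1 / ((l : ℝ) + 1)) * ((2 ^ i * t : ℕ) : ℝ) := by
    rw [ae_all_iff]; intro a
    rw [ae_all_iff]; intro B
    rw [ae_all_iff]; intro D
    rw [ae_all_iff]; intro t
    rw [ae_all_iff]; intro l
    by_cases ha : 0 < a
    · by_cases hB : B.Nonempty
      · by_cases ht : 0 < t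
        · filter_upwards [as_sub hE hind hwin ha hB D ht (ε := 1 / ((l : ℝ) + 1)) (by positivity)]
            with ω hω _ _ _
          exact hω
        · filter_upwards with ω _ _ h; exact absurd h ht
      · filter_upwards with ω _ h; exact absurd h hB
    · filter_upwards with ω h; exact absurd h ha
  filter_upwards [h1] with ω hω
  intro a ha B D hB
  apply interp (fun x => (S (rnd E ω) a B D x : ℝ))
  · intro x y hxy
    have h := abs_S_sub_le (rnd E ω) a B D hxy
    exact_mod_cast h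
  · intro t ht
    rw [Metric.tendsto_atTop]
    intro ε hε
    obtain ⟨l, hl⟩ := exists_nat_one_div_lt hε
    have h2 := hω a B D t l ha hB ht
    rw [eventually_atTop] at h2
    obtain ⟨I, hI⟩ := h2
    refine ⟨I, fun i hi => ?_⟩
    have h3 : (0 : ℝ) < ((2 ^ i * t : ℕ) : ℝ) := by
      have : 0 < 2 ^ i * t := by positivity
      exact_mod_cast this
    rw [Real.dist_eq, sub_zero, abs_div, abs_of_pos h3, div_lt_iff₀ h3]
    refine (hI i hi).trans ?_
    gcongr

end Pool.RandomSigns
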