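import Pool.Agent.LibRS5.Equiv

set_option autoImplicit false

/-!
# The almost sure equivalence in the convergent case
-/

namespace Pool.RandomSigns

open Finset MeasureTheory ProbabilityTheory Filter Topology

variable {Ω : Type*} [MeasurableSpace Ω] {P : Measure Ω} [IsProbabilityMeasure P]
  {E : ℕ → Set Ω}

/-- The event that `p` lies in exactly one of the random set and `A`. -/
def Dl (E : ℕ → Set Ω) (A : Set ℕ) (p : ℕ) : Set Ω := {ω | ¬ (ω ∈ E p ↔ p ∈ A)}

open Classical in
lemma Dl_eq (A : Set ℕ) (p : ℕ) : Dl E A p = if p ∈ A then (E p)ᶜ else E p := by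
  ext ω
  by_cases h : p ∈ A
  · simp [Dl, h]
  · simp [Dl, h]

lemma Dl_meas (hE : ∀ p, MeasurableSet (E p)) (A : Set ℕ) (p : ℕ) : MeasurableSet (Dl E A p) := by
  classical
  rw [Dl_eq]
  split_ifs
  · exact (hE p).compl
  · exact hE p

lemma Dl_maj (hE : ∀ p, MeasurableSet (E p)) (p : ℕ) :
    P.real (Dl E {p | 1 / 2 < P.real (E p)} p) = mm P E p := by
  classical
  rw [Dl_eq]
  by_cases h : 1 / 2 < P.real (E p)
  · rw [if_pos (by exact h), probReal_compl_eq_one_sub (hE p)]
    unfold mm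
    rw [min_eq_right (by linarith)]
  · rw [if_neg (by exact h)]
    unfold mm
    rw [min_eq_left (by linarith)]

theorem as_equiv (hE : ∀ p, MeasurableSet (E p)) (A : Set ℕ)
    (hs : Summable (fun p : ℕ => if p.Prime then P.real (Dl E A p) / p else 0)) :
    ∀ᵐ ω ∂P, (AllInst (rnd E ω) ↔ AllInst A) := by
  classical
  set f : ℕ → Ω → ENNReal := fun p =>
    (Dl E A p).indicator (fun _ => if p.Prime then ENNReal.ofReal (1 / (p : ℝ)) else 0) with hf
  have hfm : ∀ p, AEMeasurable (f p) P :=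
    fun p => (measurable_const.indicator (Dl_meas hE A p)).aemeasurable
  have hfi : ∀ p, ∫⁻ ω, f p ω ∂P =
      ENNReal.ofReal (if p.Prime then P.real (Dl E A p) / p else 0) := by
    intro p
    rw [hf]
    simp only
    rw [lintegral_indicator_const (Dl_meas hE A p)]
    split_ifs with hp
    · rw [div_eq_mul_one_div (P.real (Dl E A p)), ENNReal.ofReal_mul measureReal_nonneg,
        ofReal_measureReal, mul_comm]
    · simp
  have htot : ∫⁻ ω, ∑' p, f p ω ∂P ≠ ⊤ := by
    rw [lintegral_tsum hfm]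
    simp_rw [hfi]
    exact hs.tsum_ofReal_ne_top
  have hae := ae_lt_top' (AEMeasurable.tsum hfm) htot
  filter_upwards [hae] with ω hω
  apply (equiv A (rnd E ω) _).symm
  have h1 : ∀ p, f p ω = ENNReal.ofReal (dif A (rnd E ω) p) := by
    intro p
    rw [hf]
    simp only
    unfold dif
    by_cases hp : p.Prime
    · by_cases h2 : ω ∈ Dl E A p
      · have h5 : p.Prime ∧ ¬ (p ∈ A ↔ p ∈ rnd E ω) := ⟨hp, fun h6 => h2 h6.symm⟩
        rw [Set.indicator_of_mem h2, if_pos hp, if_pos h5]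
      · have h5 : ¬ (p.Prime ∧ ¬ (p ∈ A ↔ p ∈ rnd E ω)) := fun h6 => h2 (fun h7 => h6.2 h7.symm)
        rw [Set.indicator_of_notMem h2, if_neg h5]
        simp
    · have h4 : ¬ (p.Prime ∧ ¬ (p ∈ A ↔ p ∈ rnd E ω)) := fun h3 => hp h3.1
      rw [if_neg h4]
      by_cases h2 : ω ∈ Dl E A p
      · rw [Set.indicator_of_mem h2, if_neg hp]; simp
      · rw [Set.indicator_of_notMem h2]; simp
  have h2 : ∑' p, ENNReal.ofReal (dif A (rnd E ω) p) ≠ ⊤ := by
    simp_rw [← h1]
    exact hω.ne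
  have h3 := ENNReal.summable_toReal h2
  refine h3.congr (fun p => ?_)
  rw [ENNReal.toReal_ofReal (dif_nonneg _ _ _)]

end Pool.RandomSigns
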