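import Pool.Agent.LibRS5.Defs

set_option autoImplicit false

/-!
# Sums of a product of periodic signs
-/

namespace Pool.RandomSigns

open Finset

lemma sum_crt (M N : ℕ) (hM : 0 < M) (hN : 0 < N) (hco : Nat.Coprime M N) (F G : ℕ → ℝ)
    (hF : ∀ n, F (n % M) = F n) (hG : ∀ n, G (n % N) = G n) :
    ∑ n ∈ range (M * N), F n * G n = (∑ n ∈ range M, F n) * ∑ n ∈ range N, G n := by
  rw [sum_mul_sum, ← sum_product']
  symm
  apply sum_nbij' (i := fun q => (Nat.chineseRemainder hco q.1 q.2 : ℕ) % (M * N))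
    (j := fun n => (n % M, n % N))
  · intro q _
    exact mem_range.mpr (Nat.mod_lt _ (Nat.mul_pos hM hN))
  · intro n _
    simp only [mem_product, mem_range]
    exact ⟨Nat.mod_lt _ hM, Nat.mod_lt _ hN⟩
  · intro q hq
    simp only [mem_product, mem_range] at hq
    have h := (Nat.chineseRemainder hco q.1 q.2).2
    ext
    · simp only [Nat.mod_mul_right_mod]
      have h1 := h.1
      unfold Nat.ModEq at h1
      rw [h1, Nat.mod_eq_of_lt hq.1]
    · simp only [Nat.mod_mul_left_mod]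
      have h1 := h.2
      unfold Nat.ModEq at h1
      rw [h1, Nat.mod_eq_of_lt hq.2]
  · intro n hn
    have hn2 := mem_range.mp hn
    have h := (Nat.chineseRemainder hco (n % M) (n % N)).2
    have h1 : (Nat.chineseRemainder hco (n % M) (n % N) : ℕ) ≡ n [MOD M] :=
      h.1.trans (Nat.mod_modEq n M)
    have h2 : (Nat.chineseRemainder hco (n % M) (n % N) : ℕ) ≡ n [MOD N] :=
      h.2.trans (Nat.mod_modEq n N)
    have h3 : (Nat.chineseRemainder hco (n % M) (n % N) : ℕ) ≡ n [MOD M * N] :=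
      (Nat.modEq_and_modEq_iff_modEq_mul hco).mp ⟨h1, h2⟩
    unfold Nat.ModEq at h3
    rw [Nat.mod_eq_of_lt hn2] at h3
    exact h3
  · intro q hq
    simp only [mem_product, mem_range] at hq
    have h := (Nat.chineseRemainder hco q.1 q.2).2
    have h1 := h.1
    have h2 := h.2
    unfold Nat.ModEq at h1 h2
    rw [← hF (_ % (M * N)), ← hG (_ % (M * N)), Nat.mod_mul_right_mod, Nat.mod_mul_left_mod, h1, h2,
      hF, hG]

/-- The sign attached to the finite set `U` of primes. -/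
noncomputable def eps (a : ℕ) (B U : Finset ℕ) (n : ℕ) : ℝ := ∏ p ∈ U, (-1 : ℝ) ^ cnt a B p n

lemma cnt_mod (a : ℕ) (B : Finset ℕ) (p n M : ℕ) (h : p ∣ M) : cnt a B p (n % M) = cnt a B p n := by
  unfold cnt
  congr 1
  apply filter_congr
  intro b _
  have h1 : a * (n % M) + b ≡ a * n + b [MOD p] :=
    (((Nat.mod_modEq n M).of_dvd h).mul_left a).add_right b
  exact h1.dvd_iff dvd_rfl

lemma eps_mod (a : ℕ) (B U : Finset ℕ) (n M : ℕ) (h : ∀ p ∈ U, p ∣ M) :
    eps a B U (n % M) = eps a B U n := by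
  unfold eps
  apply prod_congr rfl
  intro p hp
  rw [cnt_mod a B p n M (h p hp)]

lemma cnt_le_one {a : ℕ} {B : Finset ℕ} {p : ℕ} (hB : ∀ b ∈ B, b < p) (n : ℕ) :
    cnt a B p n ≤ 1 := by
  unfold cnt
  rw [card_le_one]
  intro b hb c hc
  rw [mem_filter] at hb hc
  have h1 : a * n + b ≡ a * n + c [MOD p] :=
    (Nat.modEq_zero_iff_dvd.mpr hb.2).trans (Nat.modEq_zero_iff_dvd.mpr hc.2).symm
  have h2 : b ≡ c [MOD p] := Nat.ModEq.add_left_cancel' _ h1
  exact Nat.ModEq.eq_of_lt_of_lt h2 (hB b hb.1) (hB c hc.1)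

lemma card_sol {a p : ℕ} (hp : p.Prime) (ha : ¬ p ∣ a) (b : ℕ) :
    ((range p).filter (fun n => p ∣ a * n + b)).card = 1 := by
  have := Fact.mk hp
  have : NeZero p := ⟨hp.ne_zero⟩
  have ha' : (a : ZMod p) ≠ 0 := by
    intro h
    exact ha ((ZMod.natCast_eq_zero_iff a p).mp h)
  rw [card_eq_one]
  refine ⟨(-(b : ZMod p) * (a : ZMod p)⁻¹).val, ?_⟩
  ext n
  rw [mem_filter, mem_range, mem_singleton]
  constructor
  · rintro ⟨h1, h2⟩
    have h3 : ((a * n + b : ℕ) : ZMod p) = 0 := (ZMod.natCast_eq_zero_iff _ p).mpr h2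
    push_cast at h3
    have h4 : (n : ZMod p) = -(b : ZMod p) * (a : ZMod p)⁻¹ := by
      field_simp
      linear_combination h3
    rw [← h4, ZMod.val_natCast, Nat.mod_eq_of_lt h1]
  · intro h
    refine ⟨h ▸ ZMod.val_lt _, ?_⟩
    rw [← ZMod.natCast_eq_zero_iff, h]
    push_cast
    rw [ZMod.natCast_val, ZMod.cast_id]
    field_simp
    ring

lemma sum_sign_prime {a p : ℕ} (hp : p.Prime) (ha : ¬ p ∣ a) (B : Finset ℕ) (hB : ∀ b ∈ B, b < p) :
    ∑ n ∈ range p, (-1 : ℝ) ^ cnt a B p n = (p : ℝ) - 2 * B.card := by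
  have h1 : ∀ n ∈ range p, (-1 : ℝ) ^ cnt a B p n = 1 - 2 * (cnt a B p n : ℝ) := by
    intro n _
    have := cnt_le_one (a := a) hB n
    interval_cases h : cnt a B p n <;> norm_num
  rw [sum_congr rfl h1, sum_sub_distrib, ← mul_sum]
  have h2 : ∑ n ∈ range p, (cnt a B p n : ℝ) = B.card := by
    have h3 : ∀ n ∈ range p, (cnt a B p n : ℝ) = ∑ b ∈ B, (if p ∣ a * n + b then (1 : ℝ) else 0) := by
      intro n _
      unfold cnt
      rw [card_filter]
      push_cast
      rfl
    rw [sum_congr rfl h3, sum_comm]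
    have h4 : ∀ b ∈ B, ∑ n ∈ range p, (if p ∣ a * n + b then (1 : ℝ) else 0) = 1 := by
      intro b _
      have := card_sol hp ha b
      rw [card_filter] at this
      exact_mod_cast this
    rw [sum_congr rfl h4]
    simp
  rw [h2]
  simp

lemma sum_eps {a : ℕ} {B : Finset ℕ} (U : Finset ℕ) (hU : ∀ p ∈ U, p.Prime)
    (hUa : ∀ p ∈ U, ¬ p ∣ a) (hUB : ∀ p ∈ U, ∀ b ∈ B, b < p) :
    ∑ n ∈ range (∏ p ∈ U, p), eps a B U n = ∏ p ∈ U, ((p : ℝ) - 2 * B.card) := by
  classical
  induction U using Finset.induction_on with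
  | empty => simp [eps]
  | insert q U hq ih =>
    have ih' := ih (fun p hp => hU p (mem_insert_of_mem hp)) (fun p hp => hUa p (mem_insert_of_mem hp))
      (fun p hp => hUB p (mem_insert_of_mem hp))
    have hqp := hU q (mem_insert_self _ _)
    rw [prod_insert hq, prod_insert hq, ← ih', ← sum_sign_prime hqp (hUa q (mem_insert_self _ _)) B
      (hUB q (mem_insert_self _ _))]
    rw [← sum_crt q (∏ p ∈ U, p) hqp.pos]
    · apply sum_congr rfl
      intro n _
      unfold eps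
      rw [prod_insert hq]
    · exact prod_pos (fun p hp => (hU p (mem_insert_of_mem hp)).pos)
    · apply Nat.Coprime.prod_right
      intro p hp
      rw [Nat.coprime_primes hqp (hU p (mem_insert_of_mem hp))]
      rintro rfl
      exact hq hp
    · intro n
      rw [cnt_mod a B q n q dvd_rfl]
    · intro n
      exact eps_mod a B U n _ (fun p hp => dvd_prod_of_mem _ hp)

lemma abs_eps (a : ℕ) (B U : Finset ℕ) (n : ℕ) : |eps a B U n| = 1 := by
  unfold eps
  rw [abs_prod]
  apply prod_eq_one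
  intro p _
  rw [abs_pow]
  simp

lemma sum_periodic_le (F : ℕ → ℝ) (M : ℕ) (hM : 0 < M) (hF : ∀ n, F (n % M) = F n)
    (hF1 : ∀ n, |F n| ≤ 1) (x : ℕ) :
    |∑ n ∈ Icc 1 x, F n| ≤ (x : ℝ) / M * |∑ n ∈ range M, F n| + M := by
  have hper : ∀ n, F (n + M) = F n := by
    intro n
    rw [← hF (n + M), Nat.add_mod_right, hF]
  have hM' : (0 : ℝ) < M := by exact_mod_cast hM
  induction x using Nat.strong_induction_on with
  | _ x ih =>
    rcases lt_or_ge x M with h | h
    · calc |∑ n ∈ Icc 1 x, F n| ≤ ∑ n ∈ Icc 1 x, |F n| := abs_sum_le_sum_abs _ _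
        _ ≤ ∑ n ∈ Icc 1 x, (1 : ℝ) := sum_le_sum (fun n _ => hF1 n)
        _ = x := by simp
        _ ≤ M := by exact_mod_cast h.le
        _ ≤ (x : ℝ) / M * |∑ n ∈ range M, F n| + M := by
          have : 0 ≤ (x : ℝ) / M * |∑ n ∈ range M, F n| := by positivity
          linarith
    · obtain ⟨y, rfl⟩ : ∃ y, x = y + M := ⟨x - M, by omega⟩
      have h1 : ∑ n ∈ Icc 1 (y + M), F n = ∑ n ∈ Icc 1 y, F n + ∑ n ∈ range M, F n := by
        clear ih h
        induction y with
        | zero =>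
          simp only [zero_add]
          have h2 : ∑ n ∈ range (M + 1), F n = ∑ n ∈ range M, F n + F 0 := by
            rw [sum_range_succ]; congr 1; have := hper 0; rwa [zero_add] at this
          have h3 : ∑ n ∈ range (M + 1), F n = ∑ n ∈ Icc 1 M, F n + F 0 := by
            have h4 : range (M + 1) = insert 0 (Icc 1 M) := by
              ext n; simp only [mem_range, mem_insert, mem_Icc]; omega
            rw [h4, sum_insert (by simp)]; ring
          have h5 : Icc 1 0 = (∅ : Finset ℕ) := by simp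
          rw [h5, sum_empty]
          linarith
        | succ y ih =>
          have e1 : y + 1 + M = y + M + 1 := by ring
          rw [e1, sum_Icc_succ_top (by omega), ih, sum_Icc_succ_top (by omega), ← e1, hper]
          ring
      rw [h1]
      have h2 := ih y (by omega)
      calc |∑ n ∈ Icc 1 y, F n + ∑ n ∈ range M, F n|
          ≤ |∑ n ∈ Icc 1 y, F n| + |∑ n ∈ range M, F n| := abs_add_le _ _
        _ ≤ (y : ℝ) / M * |∑ n ∈ range M, F n| + M + |∑ n ∈ range M, F n| := by linarith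
        _ = ((y + M : ℕ) : ℝ) / M * |∑ n ∈ range M, F n| + M := by
          push_cast
          field_simp
          ring

/-- The bound for the sum of the sign attached to `U`. -/
lemma sum_eps_le {a : ℕ} {B : Finset ℕ} (U : Finset ℕ) (hU : ∀ p ∈ U, p.Prime)
    (hUa : ∀ p ∈ U, ¬ p ∣ a) (hUB : ∀ p ∈ U, ∀ b ∈ B, b < p) (hB : B.Nonempty)
    (hk : ∀ p ∈ U, 2 * B.card ≤ p) (x : ℕ) :
    |∑ n ∈ Icc 1 x, eps a B U n| ≤ x * (∏ p ∈ U, (1 - 1 / (p : ℝ))) + ∏ p ∈ U, (p : ℝ) := by
  have hMpos : 0 < ∏ p ∈ U, p := prod_pos (fun p hp => (hU p hp).pos)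
  have h1 := sum_periodic_le (eps a B U) (∏ p ∈ U, p) hMpos
    (fun n => eps_mod a B U n _ (fun p hp => dvd_prod_of_mem _ hp))
    (fun n => (abs_eps a B U n).le) x
  rw [sum_eps U hU hUa hUB] at h1
  have h2 : |∏ p ∈ U, ((p : ℝ) - 2 * B.card)| = ∏ p ∈ U, ((p : ℝ) - 2 * B.card) := by
    apply abs_of_nonneg
    apply prod_nonneg
    intro p hp
    have : (2 * B.card : ℝ) ≤ p := by exact_mod_cast hk p hp
    linarith
  rw [h2] at h1
  push_cast at h1
  have h3 : (x : ℝ) / (∏ p ∈ U, (p : ℝ)) * ∏ p ∈ U, ((p : ℝ) - 2 * B.card) =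
      x * ∏ p ∈ U, (((p : ℝ) - 2 * B.card) / p) := by
    rw [prod_div_distrib]; ring
  rw [h3] at h1
  refine h1.trans ?_
  have h4 : ∏ p ∈ U, (((p : ℝ) - 2 * B.card) / p) ≤ ∏ p ∈ U, (1 - 1 / (p : ℝ)) := by
    apply prod_le_prod
    · intro p hp
      have : (2 * B.card : ℝ) ≤ p := by exact_mod_cast hk p hp
      have h5 : (0 : ℝ) < p := by exact_mod_cast (hU p hp).pos
      exact div_nonneg (by linarith) h5.le
    · intro p hp
      have h5 : (0 : ℝ) < p := by exact_mod_cast (hU p hp).pos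
      have h6 : (1 : ℝ) ≤ B.card := by exact_mod_cast hB.card_pos
      have h7 : (1 : ℝ) - 1 / p = (p - 1) / p := by field_simp
      rw [h7]
      gcongr
      linarith
  have h8 : (0 : ℝ) ≤ x := Nat.cast_nonneg x
  gcongr

end Pool.RandomSigns
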