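import Mathlib

set_option autoImplicit false

/-!
# Moebius with random signs: definitions and factorization of the summand
-/

namespace Pool.RandomSigns

open Finset

open Classical in
/-- The sign at `p`: `-1` if `p ∈ R` and `1` otherwise. -/
noncomputable def sg (R : Set ℕ) (p : ℕ) : ℤ := if p ∈ R then -1 else 1

/-- `μ_R(n) = μ(n) (-1)^{#{p ∈ R : p prime, p ∣ n}}`: the signs at the primes in `R` are changed. -/
noncomputable def muR (R : Set ℕ) (n : ℕ) : ℤ :=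
  ArithmeticFunction.moebius n * ∏ p ∈ n.primeFactors, sg R p

/-- The summand `∏_{b ∈ B} μ_R(an+b) ∏_{d ∈ D} μ(an+d)^2`. -/
noncomputable def term (R : Set ℕ) (a : ℕ) (B D : Finset ℕ) (n : ℕ) : ℤ :=
  (∏ b ∈ B, muR R (a * n + b)) * ∏ d ∈ D, ArithmeticFunction.moebius (a * n + d) ^ 2

/-- The sum of the summands over `1 ≤ n ≤ x`. -/
noncomputable def S (R : Set ℕ) (a : ℕ) (B D : Finset ℕ) (x : ℕ) : ℤ :=
  ∑ n ∈ Icc 1 x, term R a B D n

/-- Number of `b ∈ B` with `p ∣ an+b`. -/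
def cnt (a : ℕ) (B : Finset ℕ) (p n : ℕ) : ℕ := (B.filter (fun b => p ∣ a * n + b)).card

lemma sg_cases (R : Set ℕ) (p : ℕ) : sg R p = 1 ∨ sg R p = -1 := by
  unfold sg; split_ifs <;> simp

lemma sg_empty (p : ℕ) : sg ∅ p = 1 := by simp [sg]

lemma muR_empty (n : ℕ) : muR ∅ n = ArithmeticFunction.moebius n := by simp [muR, sg_empty]

lemma muR_factor (R : Set ℕ) {n : ℕ} (hn : n ≠ 0) (Q : Finset ℕ) (hQ : ∀ p ∈ Q, p.Prime)
    (hQ2 : n.primeFactors ⊆ Q) :
    muR R n = ArithmeticFunction.moebius n * ∏ p ∈ Q, (if p ∣ n then sg R p else 1) := by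
  unfold muR
  congr 1
  rw [← prod_filter]
  apply prod_congr _ (fun p _ => rfl)
  ext p
  rw [mem_filter, Nat.mem_primeFactors]
  constructor
  · rintro ⟨h1, h2, h3⟩
    exact ⟨hQ2 (Nat.mem_primeFactors.mpr ⟨h1, h2, h3⟩), h2⟩
  · rintro ⟨h1, h2⟩
    exact ⟨hQ p h1, h2, hn⟩

lemma term_factor (R : Set ℕ) {a : ℕ} (ha : 0 < a) (B D : Finset ℕ) {n : ℕ} (hn : 0 < n)
    (Q : Finset ℕ) (hQ : ∀ p ∈ Q, p.Prime) (hQ2 : ∀ b ∈ B, (a * n + b).primeFactors ⊆ Q) :
    term R a B D n = term ∅ a B D n * ∏ p ∈ Q, (sg R p) ^ (cnt a B p n) := by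
  have h1 : ∀ b ∈ B, muR R (a * n + b) = ArithmeticFunction.moebius (a * n + b) *
      ∏ p ∈ Q, (if p ∣ a * n + b then sg R p else 1) := by
    intro b hb
    apply muR_factor R _ Q hQ (hQ2 b hb)
    have := Nat.mul_pos ha hn
    omega
  unfold term
  rw [prod_congr rfl h1, prod_mul_distrib, prod_comm]
  have h2 : ∀ p ∈ Q, ∏ b ∈ B, (if p ∣ a * n + b then sg R p else 1) = (sg R p) ^ (cnt a B p n) := by
    intro p _
    rw [← prod_filter, prod_const]
    rfl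
  rw [prod_congr rfl h2]
  have h3 : ∏ b ∈ B, muR ∅ (a * n + b) = ∏ b ∈ B, ArithmeticFunction.moebius (a * n + b) :=
    prod_congr rfl (fun b _ => muR_empty _)
  rw [h3]
  ring

lemma abs_muR_le (R : Set ℕ) (n : ℕ) : |muR R n| ≤ 1 := by
  unfold muR
  rw [abs_mul, abs_prod]
  have h1 : ∏ p ∈ n.primeFactors, |sg R p| = 1 := by
    apply prod_eq_one
    intro p _
    rcases sg_cases R p with h | h <;> rw [h] <;> simp
  have h2 := @ArithmeticFunction.abs_moebius_le_one n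
  rw [h1, mul_one]
  exact h2

lemma abs_term_le (R : Set ℕ) (a : ℕ) (B D : Finset ℕ) (n : ℕ) : |term R a B D n| ≤ 1 := by
  unfold term
  rw [abs_mul, abs_prod, abs_prod]
  have h1 : ∏ b ∈ B, |muR R (a * n + b)| ≤ 1 :=
    prod_le_one (fun b _ => abs_nonneg _) (fun b _ => abs_muR_le R _)
  have h2 : ∏ d ∈ D, |ArithmeticFunction.moebius (a * n + d) ^ 2| ≤ 1 := by
    apply prod_le_one (fun b _ => abs_nonneg _)
    intro d _
    rw [abs_pow]
    exact pow_le_one₀ (abs_nonneg _) ArithmeticFunction.abs_moebius_le_one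
  exact mul_le_one₀ h1 (prod_nonneg (fun b _ => abs_nonneg _)) h2

lemma abs_S_sub_le (R : Set ℕ) (a : ℕ) (B D : Finset ℕ) {x y : ℕ} (h : x ≤ y) :
    |S R a B D y - S R a B D x| ≤ (y : ℤ) - x := by
  have h1 : S R a B D y - S R a B D x = ∑ n ∈ Ioc x y, term R a B D n := by
    unfold S
    have h2 : Icc 1 y = Icc 1 x ∪ Ioc x y := by
      ext n; simp only [mem_Icc, mem_union, mem_Ioc]; omega
    have h3 : Disjoint (Icc 1 x) (Ioc x y) := by
      rw [disjoint_left]; intro n hn hn2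
      simp only [mem_Icc, mem_Ioc] at hn hn2; omega
    rw [h2, sum_union h3]; ring
  rw [h1]
  calc |∑ n ∈ Ioc x y, term R a B D n| ≤ ∑ n ∈ Ioc x y, |term R a B D n| := abs_sum_le_sum_abs _ _
    _ ≤ ∑ n ∈ Ioc x y, 1 := sum_le_sum (fun n _ => abs_term_le R a B D n)
    _ = (y : ℤ) - x := by
      rw [sum_const, Nat.card_Ioc, nsmul_eq_mul, mul_one]; omega

lemma abs_S_le (R : Set ℕ) (a : ℕ) (B D : Finset ℕ) (x : ℕ) : |S R a B D x| ≤ (x : ℤ) := by
  have h := abs_S_sub_le R a B D (Nat.zero_le x)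
  have h0 : S R a B D 0 = 0 := by unfold S; simp
  rw [h0] at h
  simpa using h

end Pool.RandomSigns
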