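import Pool.Agent.LibRS5.AS

set_option autoImplicit false

/-!
# Changing the signs at a set of primes with convergent sum of reciprocals
-/

namespace Pool.RandomSigns

open Finset Filter Topology

/-- Mean value zero. -/
def Little (F : ℕ → ℝ) : Prop :=
  Tendsto (fun x : ℕ => (∑ n ∈ Icc 1 x, F n) / x) atTop (𝓝 0)

lemma little_approx (F : ℕ → ℝ)
    (h : ∀ ε > 0, ∃ G : ℕ → ℝ, Little G ∧ ∀ᶠ x : ℕ in atTop, ∑ n ∈ Icc 1 x, |F n - G n| ≤ ε * x) :
    Little F := by
  unfold Little
  rw [Metric.tendsto_atTop]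
  intro ε hε
  obtain ⟨G, hG, hG2⟩ := h (ε / 2) (by positivity)
  unfold Little at hG
  obtain ⟨N, hN⟩ := (Metric.tendsto_atTop.mp hG) (ε / 2) (by positivity)
  obtain ⟨N2, hN2⟩ := eventually_atTop.mp hG2
  refine ⟨max (max N N2) 1, fun x hx => ?_⟩
  have h1 := hN x (by omega)
  have h2 := hN2 x (by omega)
  have hx0 : (0 : ℝ) < x := by
    have : 0 < x := by omega
    exact_mod_cast this
  rw [Real.dist_eq, sub_zero, abs_div, abs_of_pos hx0, div_lt_iff₀ hx0] at h1 ⊢
  have h3 : |∑ n ∈ Icc 1 x, F n| ≤ |∑ n ∈ Icc 1 x, G n| + ∑ n ∈ Icc 1 x, |F n - G n| := by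
    have h4 : ∑ n ∈ Icc 1 x, F n = ∑ n ∈ Icc 1 x, G n + ∑ n ∈ Icc 1 x, (F n - G n) := by
      rw [← sum_add_distrib]
      apply sum_congr rfl
      intro n _
      ring
    rw [h4]
    exact (abs_add_le _ _).trans (add_le_add le_rfl (abs_sum_le_sum_abs _ _))
  linarith

lemma sum_block (G : ℕ → ℝ) (M : ℕ) (k : ℕ) :
    ∑ j ∈ Icc 1 k, ∑ s ∈ range M, G (M * j + s) = ∑ n ∈ Ico M (M * (k + 1)), G n := by
  induction k with
  | zero => simp
  | succ k ih =>
    rw [sum_Icc_succ_top (by omega), ih]
    have h1 : M ≤ M * (k + 1) := by nlinarith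
    have h2 : M * (k + 1) ≤ M * (k + 1 + 1) := by nlinarith
    rw [← sum_Ico_consecutive G h1 h2]
    congr 1
    rw [sum_Ico_eq_sum_range]
    have h3 : M * (k + 1 + 1) - M * (k + 1) = M := by
      rw [mul_add M (k + 1) 1]; omega
    rw [h3]

lemma little_classes (F h : ℕ → ℝ) (M : ℕ) (hM : 0 < M) (hF : ∀ n, |F n| ≤ 1) (hh : ∀ n, |h n| ≤ 1)
    (hper : ∀ n, h (n % M) = h n) (hL : ∀ s < M, Little (fun j => F (M * j + s))) :
    Little (fun n => F n * h n) := by
  have hT : Tendsto (fun k : ℕ => (∑ j ∈ Icc 1 k, ∑ s ∈ range M, F (M * j + s) * h (M * j + s)) / k)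
      atTop (𝓝 0) := by
    have h1 : ∀ k : ℕ, (∑ j ∈ Icc 1 k, ∑ s ∈ range M, F (M * j + s) * h (M * j + s)) / (k : ℝ) =
        ∑ s ∈ range M, h s * ((∑ j ∈ Icc 1 k, F (M * j + s)) / k) := by
      intro k
      rw [sum_comm, sum_div]
      apply sum_congr rfl
      intro s hs
      rw [mem_range] at hs
      have h2 : ∀ j, h (M * j + s) = h s := by
        intro j
        rw [← hper (M * j + s), Nat.mul_add_mod, Nat.mod_eq_of_lt hs]
      simp_rw [h2]
      rw [← sum_mul]
      ring
    simp_rw [h1]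
    have h3 : (0 : ℝ) = ∑ s ∈ range M, h s * 0 := by simp
    rw [h3]
    apply tendsto_finsetSum
    intro s hs
    exact (hL s (mem_range.mp hs)).const_mul _
  unfold Little
  rw [Metric.tendsto_atTop]
  intro ε hε
  obtain ⟨K, hK⟩ := (Metric.tendsto_atTop.mp hT) (ε / 2) (by positivity)
  obtain ⟨x0, hx0⟩ := exists_nat_gt (4 * M / ε)
  refine ⟨max (max (M * (K + 1)) x0) 1, fun x hx => ?_⟩
  have hx1 : M * (K + 1) ≤ x := by omega
  have hx2 : (x0 : ℝ) ≤ x := by
    have : x0 ≤ x := by omega
    exact_mod_cast this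
  have hxpos : (0 : ℝ) < x := by
    have : 0 < x := by omega
    exact_mod_cast this
  set k := x / M with hk
  have hk1 : K + 1 ≤ k := by
    rw [hk, Nat.le_div_iff_mul_le hM]; linarith
  have hk2 : k ≤ x := Nat.div_le_self _ _
  have hk0 : (0 : ℝ) < k := by
    have : 0 < k := by omega
    exact_mod_cast this
  have h1 := hK k (by omega)
  rw [Real.dist_eq, sub_zero, abs_div, abs_of_pos hk0, div_lt_iff₀ hk0] at h1
  rw [sum_block (fun n => F n * h n) M k] at h1
  rw [Real.dist_eq, sub_zero, abs_div, abs_of_pos hxpos, div_lt_iff₀ hxpos]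
  have hxk : M * k ≤ x := Nat.mul_div_le x M
  have hxk2 : x < M * (k + 1) := by
    have := Nat.lt_div_mul_add (a := x) hM
    rw [← hk] at this
    nlinarith
  have hFh : ∀ n, |F n * h n| ≤ 1 := by
    intro n
    rw [abs_mul]
    exact mul_le_one₀ (hF n) (abs_nonneg _) (hh n)
  have hsplit : ∑ n ∈ Ico 1 (M * (k + 1)), F n * h n =
      ∑ n ∈ Icc 1 x, F n * h n + ∑ n ∈ Ico (x + 1) (M * (k + 1)), F n * h n := by
    rw [← sum_Ico_consecutive _ (by omega : 1 ≤ x + 1) (by omega : x + 1 ≤ M * (k + 1))]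
    rfl
  have hMM : M ≤ M * (k + 1) := by nlinarith
  have hsplit2 : ∑ n ∈ Ico 1 (M * (k + 1)), F n * h n =
      ∑ n ∈ Ico 1 M, F n * h n + ∑ n ∈ Ico M (M * (k + 1)), F n * h n := by
    rw [← sum_Ico_consecutive _ (by omega : 1 ≤ M) hMM]
  have hb1 : |∑ n ∈ Ico (x + 1) (M * (k + 1)), F n * h n| ≤ M := by
    calc |∑ n ∈ Ico (x + 1) (M * (k + 1)), F n * h n|
        ≤ ∑ n ∈ Ico (x + 1) (M * (k + 1)), |F n * h n| := abs_sum_le_sum_abs _ _
      _ ≤ ∑ n ∈ Ico (x + 1) (M * (k + 1)), (1 : ℝ) := sum_le_sum (fun n _ => hFh n)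
      _ = ((M * (k + 1) - (x + 1) : ℕ) : ℝ) := by simp
      _ ≤ M := by
        have : M * (k + 1) - (x + 1) ≤ M := by
          have : M * (k + 1) = M * k + M := by ring
          omega
        exact_mod_cast this
  have hb2 : |∑ n ∈ Ico 1 M, F n * h n| ≤ M := by
    calc |∑ n ∈ Ico 1 M, F n * h n|
        ≤ ∑ n ∈ Ico 1 M, |F n * h n| := abs_sum_le_sum_abs _ _
      _ ≤ ∑ n ∈ Ico 1 M, (1 : ℝ) := sum_le_sum (fun n _ => hFh n)
      _ = ((M - 1 : ℕ) : ℝ) := by simp
      _ ≤ M := by
        have : M - 1 ≤ M := by omega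
        exact_mod_cast this
  have h2 : ∑ n ∈ Icc 1 x, F n * h n = ∑ n ∈ Ico M (M * (k + 1)), F n * h n +
      ∑ n ∈ Ico 1 M, F n * h n - ∑ n ∈ Ico (x + 1) (M * (k + 1)), F n * h n := by linarith
  rw [h2]
  have hkx : (k : ℝ) ≤ x := by exact_mod_cast hk2
  have hM4 : 4 * (M : ℝ) < ε * x := by
    rw [div_lt_iff₀ hε] at hx0
    nlinarith
  have e1 := abs_le.mp hb1
  have e2 := abs_le.mp hb2
  have e3 := abs_lt.mp h1
  have e4 : ε / 2 * (k : ℝ) ≤ ε / 2 * x := by gcongr
  rw [abs_lt]
  constructor <;> linarith [e1.1, e1.2, e2.1, e2.2, e3.1, e3.2]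

lemma count_le {a : ℕ} {p : ℕ} (hp : p.Prime) (ha : 0 < a) (hpa : ¬ p ∣ a) (b x : ℕ) (hx : 0 < x) :
    (((Icc 1 x).filter (fun n => p ∣ a * n + b)).card : ℝ) ≤ (a + b + 1) * x / p := by
  have hp0 : (0 : ℝ) < p := by exact_mod_cast hp.pos
  rcases Nat.lt_or_ge (a * x + b) p with h | h
  · have h1 : (Icc 1 x).filter (fun n => p ∣ a * n + b) = ∅ := by
      rw [filter_eq_empty_iff]
      intro n hn hd
      rw [mem_Icc] at hn
      have h2 : p ≤ a * n + b := Nat.le_of_dvd (by have := Nat.mul_pos ha (by omega : 0 < n); omega) hd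
      have h3 : a * n ≤ a * x := Nat.mul_le_mul_left a hn.2
      omega
    rw [h1, card_empty]
    push_cast
    positivity
  · have h1 : ((Icc 1 x).filter (fun n => p ∣ a * n + b)).card ≤ (range (x / p + 1)).card := by
      apply card_le_card_of_injOn (fun n => n / p)
      · intro n hn
        rw [coe_filter, Set.mem_ofPred_eq, mem_Icc] at hn
        rw [coe_range, Set.mem_Iio]
        have := Nat.div_le_div_right (c := p) hn.1.2
        show n / p < x / p + 1
        omega
      · intro n hn m hm hnm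
        rw [coe_filter, Set.mem_ofPred_eq] at hn hm
        simp only at hnm
        have h2 : a * n ≡ a * m [MOD p] := by
          have h3 : a * n + b ≡ a * m + b [MOD p] :=
            (Nat.modEq_zero_iff_dvd.mpr hn.2).trans (Nat.modEq_zero_iff_dvd.mpr hm.2).symm
          exact Nat.ModEq.add_right_cancel' _ h3
        have h4 : n ≡ m [MOD p] :=
          Nat.ModEq.cancel_left_of_coprime ((Nat.Prime.coprime_iff_not_dvd hp).mpr hpa) h2
        unfold Nat.ModEq at h4
        rw [← Nat.div_add_mod n p, ← Nat.div_add_mod m p, hnm, h4]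
    rw [card_range] at h1
    have h2 : (((Icc 1 x).filter (fun n => p ∣ a * n + b)).card : ℝ) ≤ ((x / p + 1 : ℕ) : ℝ) := by
      exact_mod_cast h1
    refine h2.trans ?_
    push_cast
    have h3 : ((x / p : ℕ) : ℝ) ≤ x / p := Nat.cast_div_le
    have h4 : (p : ℝ) ≤ (a + b) * x := by
      have h5 : a * x + b ≤ (a + b) * x := by nlinarith
      have h6 : p ≤ (a + b) * x := h.trans h5
      exact_mod_cast h6
    have h5 : (1 : ℝ) ≤ (a + b) * x / p := by
      rw [le_div_iff₀ hp0]; linarith
    have h6 : ((a : ℝ) + b + 1) * x / p = (a + b) * x / p + x / p := by ring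
    linarith

lemma term_shift (R : Set ℕ) (a : ℕ) (B D : Finset ℕ) (M s j : ℕ) :
    term R a B D (M * j + s) =
      term R (a * M) (B.image (fun b => a * s + b)) (D.image (fun b => a * s + b)) j := by
  unfold term
  rw [prod_image (fun b _ c _ h => by simpa using h), prod_image (fun b _ c _ h => by simpa using h)]
  have h : ∀ b, a * (M * j + s) + b = a * M * j + (a * s + b) := fun b => by ring
  simp_rw [h]

open Classical in
lemma term_change (A R : Set ℕ) {a : ℕ} (ha : 0 < a) (B D : Finset ℕ) {n : ℕ} (hn : 0 < n)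
    (Q : Finset ℕ) (hQ : ∀ p ∈ Q, p.Prime) (hQ2 : ∀ b ∈ B, (a * n + b).primeFactors ⊆ Q) :
    (term R a B D n : ℝ) = (term A a B D n : ℝ) *
      eps a B (Q.filter (fun p => ¬ (p ∈ A ↔ p ∈ R))) n := by
  rw [term_factor R ha B D hn Q hQ hQ2, term_factor A ha B D hn Q hQ hQ2]
  push_cast
  rw [mul_assoc]
  congr 1
  unfold eps
  rw [prod_filter, ← prod_mul_distrib]
  apply prod_congr rfl
  intro p _
  unfold sg
  by_cases h1 : p ∈ A <;> by_cases h2 : p ∈ R <;> simp [h1, h2]
  rw [← mul_pow]
  simp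

open Classical in
/-- The weight `1/p` of the primes where `A` and `R` differ. -/
noncomputable def dif (A R : Set ℕ) (p : ℕ) : ℝ :=
  if p.Prime ∧ ¬ (p ∈ A ↔ p ∈ R) then 1 / (p : ℝ) else 0

lemma dif_nonneg (A R : Set ℕ) (p : ℕ) : 0 ≤ dif A R p := by
  unfold dif
  split_ifs
  · positivity
  · exact le_refl 0

lemma abs_prod_sub_one_le (V : Finset ℕ) (c : ℕ → ℕ) :
    |∏ p ∈ V, (-1 : ℝ) ^ c p - 1| ≤ 2 * ∑ p ∈ V, (c p : ℝ) := by
  by_cases h : ∀ p ∈ V, c p = 0
  · have h1 : ∏ p ∈ V, (-1 : ℝ) ^ c p = 1 := by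
      apply prod_eq_one
      intro p hp
      rw [h p hp, pow_zero]
    rw [h1, sub_self, abs_zero]
    have : (0 : ℝ) ≤ ∑ p ∈ V, (c p : ℝ) := sum_nonneg (fun p _ => Nat.cast_nonneg _)
    linarith
  · push Not at h
    obtain ⟨q, hq, hq2⟩ := h
    have h1 : (1 : ℝ) ≤ ∑ p ∈ V, (c p : ℝ) := by
      have h2 : (c q : ℝ) ≤ ∑ p ∈ V, (c p : ℝ) :=
        single_le_sum (f := fun p => (c p : ℝ)) (fun p _ => Nat.cast_nonneg _) hq
      have h3 : (1 : ℝ) ≤ c q := by
        have : 1 ≤ c q := by omega
        exact_mod_cast this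
      linarith
    have h4 : |∏ p ∈ V, (-1 : ℝ) ^ c p| = 1 := by
      rw [abs_prod]
      apply prod_eq_one
      intro p _
      rw [abs_pow]
      simp
    have h5 : |∏ p ∈ V, (-1 : ℝ) ^ c p - 1| ≤ |∏ p ∈ V, (-1 : ℝ) ^ c p| + |(1 : ℝ)| := abs_sub _ _
    rw [h4, abs_one] at h5
    linarith

theorem equiv_core (A R : Set ℕ) (hsum : Summable (dif A R)) (hA : AllInst A) : AllInst R := by
  classical
  intro a ha B D hB
  have hgoal : Little (fun n => (term R a B D n : ℝ)) := by
    apply little_approx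
    intro ε hε
    set C : ℝ := 2 * B.card * (a + B.sup id + 1) with hC
    have hC0 : 0 < C := by
      have : (1 : ℝ) ≤ B.card := by exact_mod_cast hB.card_pos
      positivity
    -- choose y
    have h1 := hsum.tendsto_sum_tsum_nat
    obtain ⟨y0, hy0⟩ := (Metric.tendsto_atTop.mp h1) (ε / C) (by positivity)
    set y := max y0 (a + 1) with hy
    have hty := hy0 y (le_max_left _ _)
    have htail : ∀ V : Finset ℕ, (∀ p ∈ V, y ≤ p) → ∑ p ∈ V, dif A R p ≤ ε / C := by
      intro V hV
      have h2 : Disjoint V (range y) := by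
        rw [disjoint_left]
        intro p hp hp2
        have := hV p hp
        rw [mem_range] at hp2
        omega
      have h3 : ∑ p ∈ V ∪ range y, dif A R p ≤ ∑' p, dif A R p :=
        hsum.sum_le_tsum _ (fun p _ => dif_nonneg A R p)
      rw [sum_union h2] at h3
      rw [Real.dist_eq, abs_sub_comm] at hty
      have h4 := le_abs_self (∑' p, dif A R p - ∑ p ∈ range y, dif A R p)
      linarith
    set U : Finset ℕ := ((range y).filter Nat.Prime).filter (fun p => ¬ (p ∈ A ↔ p ∈ R)) with hU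
    have hUp : ∀ p ∈ U, p.Prime := fun p hp => (mem_filter.mp (mem_filter.mp hp).1).2
    refine ⟨fun n => (term A a B D n : ℝ) * eps a B U n, ?_, ?_⟩
    · apply little_classes (fun n => (term A a B D n : ℝ)) (eps a B U) (∏ p ∈ U, p)
      · exact prod_pos (fun p hp => (hUp p hp).pos)
      · intro n
        have := abs_term_le A a B D n
        exact_mod_cast this
      · intro n
        exact (abs_eps a B U n).le
      · intro n
        exact eps_mod a B U n _ (fun p hp => dvd_prod_of_mem _ hp)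
      · intro s _
        have h2 := hA (a * ∏ p ∈ U, p) (Nat.mul_pos ha (prod_pos (fun p hp => (hUp p hp).pos)))
          (B.image (fun b => a * s + b)) (D.image (fun b => a * s + b)) (hB.image _)
        unfold Little
        simp_rw [term_shift]
        unfold S at h2
        push_cast at h2
        exact h2
    · filter_upwards [eventually_ge_atTop 1] with x hx
      set Q : Finset ℕ := (range (y + (a * x + B.sup id + 1))).filter Nat.Prime with hQ
      set V : Finset ℕ := (Q.filter (fun p => ¬ (p ∈ A ↔ p ∈ R))).filter (fun p => y ≤ p) with hV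
      have hQp : ∀ p ∈ Q, p.Prime := fun p hp => (mem_filter.mp hp).2
      have hVp : ∀ p ∈ V, p.Prime := fun p hp => hQp p (mem_filter.mp (mem_filter.mp hp).1).1
      have hVy : ∀ p ∈ V, y ≤ p := fun p hp => (mem_filter.mp hp).2
      have hVd : ∀ p ∈ V, dif A R p = 1 / p := by
        intro p hp
        unfold dif
        rw [if_pos ⟨hVp p hp, (mem_filter.mp (mem_filter.mp hp).1).2⟩]
      have hterm : ∀ n ∈ Icc 1 x, |(term R a B D n : ℝ) - (term A a B D n : ℝ) * eps a B U n| ≤
          2 * ∑ p ∈ V, (cnt a B p n : ℝ) := by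
        intro n hn
        rw [mem_Icc] at hn
        rw [term_change A R ha B D (by omega : 0 < n) Q hQp]
        · have h2 : Q.filter (fun p => ¬ (p ∈ A ↔ p ∈ R)) = U ∪ V := by
            ext p
            simp only [hU, hV, hQ, mem_filter, mem_union, mem_range]
            constructor
            · rintro ⟨⟨h3, h4⟩, h5⟩
              rcases lt_or_ge p y with h6 | h6
              · exact Or.inl ⟨⟨h6, h4⟩, h5⟩
              · exact Or.inr ⟨⟨⟨h3, h4⟩, h5⟩, h6⟩
            · rintro (⟨⟨h3, h4⟩, h5⟩ | ⟨⟨⟨h3, h4⟩, h5⟩, h6⟩)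
              · exact ⟨⟨by omega, h4⟩, h5⟩
              · exact ⟨⟨h3, h4⟩, h5⟩
          have h3 : Disjoint U V := by
            rw [disjoint_left]
            intro p hp hp2
            have h4 := hVy p hp2
            have h5 := mem_range.mp (mem_filter.mp (mem_filter.mp hp).1).1
            omega
          rw [h2]
          have h4 : eps a B (U ∪ V) n = eps a B U n * eps a B V n := by
            unfold eps
            rw [prod_union h3]
          rw [h4]
          have h5 : (term A a B D n : ℝ) * (eps a B U n * eps a B V n) -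
              (term A a B D n : ℝ) * eps a B U n =
              (term A a B D n : ℝ) * eps a B U n * (eps a B V n - 1) := by ring
          rw [h5, abs_mul, abs_mul, abs_eps, mul_one]
          have h6 : |(term A a B D n : ℝ)| ≤ 1 := by
            have := abs_term_le A a B D n
            exact_mod_cast this
          calc |(term A a B D n : ℝ)| * |eps a B V n - 1| ≤ 1 * |eps a B V n - 1| := by gcongr
            _ = |eps a B V n - 1| := one_mul _
            _ ≤ _ := abs_prod_sub_one_le V (fun p => cnt a B p n)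
        · intro b hb p hp
          rw [hQ, mem_filter, mem_range]
          have hp' := Nat.mem_primeFactors.mp hp
          refine ⟨?_, hp'.1⟩
          have h1 : p ≤ a * n + b :=
            Nat.le_of_dvd (by have := Nat.mul_pos ha (by omega : 0 < n); omega) hp'.2.1
          have h2 : b ≤ B.sup id := le_sup (f := id) hb
          have h3 : a * n ≤ a * x := Nat.mul_le_mul_left a hn.2
          omega
      have hcnt : ∀ p ∈ V, ∑ n ∈ Icc 1 x, (cnt a B p n : ℝ) ≤
          B.card * (a + B.sup id + 1) * x * (1 / p) := by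
        intro p hp
        have h2 : ∑ n ∈ Icc 1 x, (cnt a B p n : ℝ) =
            ∑ b ∈ B, (((Icc 1 x).filter (fun n => p ∣ a * n + b)).card : ℝ) := by
          have h3 : ∀ n ∈ Icc 1 x, (cnt a B p n : ℝ) =
              ∑ b ∈ B, (if p ∣ a * n + b then (1 : ℝ) else 0) := by
            intro n _
            unfold cnt
            rw [card_filter]
            push_cast
            rfl
          rw [sum_congr rfl h3, sum_comm]
          apply sum_congr rfl
          intro b _
          rw [card_filter]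
          push_cast
          rfl
        rw [h2]
        have hpa : ¬ p ∣ a := by
          intro hd
          have h4 := Nat.le_of_dvd ha hd
          have h5 := hVy p hp
          have h6 := le_max_right y0 (a + 1)
          omega
        calc ∑ b ∈ B, (((Icc 1 x).filter (fun n => p ∣ a * n + b)).card : ℝ)
            ≤ ∑ b ∈ B, ((a + B.sup id + 1) * x / p : ℝ) := by
              apply sum_le_sum
              intro b hb
              refine (count_le (hVp p hp) ha hpa b x (by omega)).trans ?_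
              have h2 : (b : ℝ) ≤ ((B.sup id : ℕ) : ℝ) := by exact_mod_cast le_sup (f := id) hb
              have h3 : (0 : ℝ) < p := by exact_mod_cast (hVp p hp).pos
              gcongr
          _ = B.card * (a + B.sup id + 1) * x * (1 / p) := by
              rw [sum_const, nsmul_eq_mul]
              ring
      calc ∑ n ∈ Icc 1 x, |(term R a B D n : ℝ) - (term A a B D n : ℝ) * eps a B U n|
          ≤ ∑ n ∈ Icc 1 x, 2 * ∑ p ∈ V, (cnt a B p n : ℝ) := sum_le_sum hterm
        _ = 2 * ∑ p ∈ V, ∑ n ∈ Icc 1 x, (cnt a B p n : ℝ) := by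
            rw [← mul_sum, sum_comm]
        _ ≤ 2 * ∑ p ∈ V, (B.card * (a + B.sup id + 1) * x * (1 / p) : ℝ) := by
            gcongr with p hp
            exact hcnt p hp
        _ = C * x * ∑ p ∈ V, dif A R p := by
            rw [sum_congr rfl hVd, ← mul_sum]
            ring
        _ ≤ C * x * (ε / C) := by
            have := htail V hVy
            gcongr
        _ = ε * x := by field_simp
  unfold Little at hgoal
  unfold S
  push_cast
  exact hgoal

lemma dif_comm (A R : Set ℕ) : dif A R = dif R A := by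
  funext p
  unfold dif
  by_cases h1 : p ∈ A <;> by_cases h2 : p ∈ R <;> simp [h1, h2]

theorem equiv (A R : Set ℕ) (hsum : Summable (dif A R)) : AllInst A ↔ AllInst R :=
  ⟨equiv_core A R hsum, equiv_core R A (dif_comm A R ▸ hsum)⟩

end Pool.RandomSigns
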