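import Pool.Agent.LibRS5.Moment

set_option autoImplicit false

/-!
# The bound for the moments of the sum
-/

namespace Pool.RandomSigns

open Finset MeasureTheory ProbabilityTheory

lemma exp_neg_le {t : ℝ} (h0 : 0 ≤ t) (h1 : t ≤ 1) : Real.exp (-t) ≤ 1 - t / 2 := by
  rw [Real.exp_neg]
  have h2 := Real.add_one_le_exp t
  have h3 : (0 : ℝ) < t + 1 := by linarith
  have h4 : (Real.exp t)⁻¹ ≤ (t + 1)⁻¹ := inv_anti₀ h3 h2
  refine h4.trans ?_
  rw [inv_le_iff_one_le_mul₀ h3]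
  nlinarith [mul_nonneg h0 (sub_nonneg.mpr h1)]

lemma one_sub_pow_le {p r : ℕ} (hp : 0 < p) (hr : 2 * r ≤ p) :
    (1 - 1 / (p : ℝ)) ^ (2 * r) ≤ 1 - r / p := by
  have hp' : (0 : ℝ) < p := by exact_mod_cast hp
  have hp1 : (1 : ℝ) ≤ p := by exact_mod_cast hp
  have h1 : (0 : ℝ) ≤ 1 - 1 / (p : ℝ) := by
    rw [sub_nonneg, div_le_one hp']; exact hp1
  have h2 : 1 - 1 / (p : ℝ) ≤ Real.exp (-(1 / (p : ℝ))) := Real.one_sub_le_exp_neg _
  have hr' : (2 * r : ℝ) ≤ p := by exact_mod_cast hr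
  calc (1 - 1 / (p : ℝ)) ^ (2 * r) ≤ Real.exp (-(1 / (p : ℝ))) ^ (2 * r) := by gcongr
    _ = Real.exp (-((2 * r : ℝ) / p)) := by
      rw [← Real.exp_nat_mul]
      congr 1
      push_cast
      ring
    _ ≤ 1 - ((2 * r : ℝ) / p) / 2 := by
      apply exp_neg_le
      · positivity
      · rw [div_le_one hp']; exact hr'
    _ = 1 - r / p := by ring

variable {Ω : Type*} [MeasurableSpace Ω] {P : Measure Ω} [IsProbabilityMeasure P]
  {E : ℕ → Set Ω}

lemma master (hE : ∀ p, MeasurableSet (E p))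
    (hind : iIndepSet (fun p : Nat.Primes => E p) P) {a : ℕ} (ha : 0 < a) {B : Finset ℕ}
    (hB : B.Nonempty) (D : Finset ℕ) (T : Finset ℕ) (r : ℕ)
    (hT : ∀ p ∈ T, p.Prime) (hTa : ∀ p ∈ T, ¬ p ∣ a) (hTB : ∀ p ∈ T, ∀ b ∈ B, b < p)
    (hTk : ∀ p ∈ T, 2 * B.card ≤ p) (hTr : ∀ p ∈ T, 2 * r ≤ p) (x : ℕ) :
    ∫ ω, (S (rnd E ω) a B D x : ℝ) ^ (2 * r) ∂P ≤
      2 ^ (2 * r) * ((x : ℝ) ^ (2 * r) * Real.exp (-(r * ∑ p ∈ T, mm P E p / p)) +
        (∏ p ∈ T, (p : ℝ)) ^ (2 * r)) := by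
  classical
  set Q : Finset ℕ := T ∪ (Icc 1 (a * x + B.sup id)).filter Nat.Prime with hQdef
  have hQ : ∀ p ∈ Q, p.Prime := by
    intro p hp
    rw [hQdef, mem_union, mem_filter] at hp
    rcases hp with hp | hp
    · exact hT p hp
    · exact hp.2
  have hfac : ∀ ω, (S (rnd E ω) a B D x : ℝ) =
      ∑ n ∈ Icc 1 x, (max (-1) (min 1 (term ∅ a B D n : ℝ))) *
        ∏ p ∈ Q, (sg (rnd E ω) p : ℝ) ^ cnt a B p n := by
    intro ω
    unfold S
    push_cast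
    apply sum_congr rfl
    intro n hn
    rw [mem_Icc] at hn
    rw [term_factor (rnd E ω) ha B D (by omega : 0 < n) Q hQ]
    · have h1 := abs_le.mp (abs_term_le ∅ a B D n)
      have h2 : (term ∅ a B D n : ℝ) ≤ 1 := by exact_mod_cast h1.2
      have h3 : (-1 : ℝ) ≤ term ∅ a B D n := by exact_mod_cast h1.1
      rw [min_eq_right h2, max_eq_right h3]
      push_cast
      rfl
    · intro b hb p hp
      rw [hQdef, mem_union, mem_filter, mem_Icc]
      right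
      have hp' := Nat.mem_primeFactors.mp hp
      refine ⟨⟨hp'.1.one_lt.le, ?_⟩, hp'.1⟩
      have h1 : p ≤ a * n + b := Nat.le_of_dvd (by have := Nat.mul_pos ha (by omega : 0 < n); omega) hp'.2.1
      have h2 : b ≤ B.sup id := le_sup (f := id) hb
      have h3 : a * n ≤ a * x := Nat.mul_le_mul_left a hn.2
      omega
  simp_rw [hfac]
  have hmom := moment_le hE hind Q T (Icc 1 x) hQ (by rw [hQdef]; exact subset_union_left)
    (fun n => max (-1) (min 1 (term ∅ a B D n : ℝ)))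
    (fun n => by
      rw [abs_le]
      exact ⟨le_max_left _ _, max_le (by norm_num) (min_le_left _ _)⟩) (cnt a B) (2 * r)
  refine hmom.trans ?_
  set W : Finset ℕ → ℝ := fun U => (∏ p ∈ U, mm P E p) * (∏ p ∈ T \ U, (1 - mm P E p)) with hW
  have hW0 : ∀ U, 0 ≤ W U := by
    intro U
    apply mul_nonneg
    · exact prod_nonneg (fun p _ => mm_nonneg p)
    · exact prod_nonneg (fun p _ => by linarith [mm_le_half (P := P) (E := E) p])
  have hterm : ∀ U ∈ T.powerset, (∑ n ∈ Icc 1 x, ∏ p ∈ U, (-1 : ℝ) ^ cnt a B p n) ^ (2 * r) ≤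
      2 ^ (2 * r) * ((x : ℝ) ^ (2 * r) * (∏ p ∈ U, (1 - 1 / (p : ℝ)) ^ (2 * r)) +
        (∏ p ∈ T, (p : ℝ)) ^ (2 * r)) := by
    intro U hU
    rw [mem_powerset] at hU
    have h1 := sum_eps_le U (fun p hp => hT p (hU hp)) (fun p hp => hTa p (hU hp))
      (fun p hp => hTB p (hU hp)) hB (fun p hp => hTk p (hU hp)) x
    have h2 : ∏ p ∈ U, (p : ℝ) ≤ ∏ p ∈ T, (p : ℝ) := by
      rw [← prod_sdiff hU]
      apply le_mul_of_one_le_left (prod_nonneg (fun p _ => Nat.cast_nonneg p))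
      have h8 : ∏ p ∈ T \ U, (1 : ℝ) ≤ ∏ p ∈ T \ U, (p : ℝ) := by
        apply prod_le_prod (fun p _ => zero_le_one)
        intro p hp
        exact_mod_cast (hT p (mem_sdiff.mp hp).1).one_lt.le
      simpa using h8
    have h3 : (0 : ℝ) ≤ ∏ p ∈ U, (1 - 1 / (p : ℝ)) := by
      apply prod_nonneg
      intro p hp
      have : (1 : ℝ) ≤ p := by exact_mod_cast (hT p (hU hp)).one_lt.le
      rw [sub_nonneg, div_le_one (by linarith)]
      exact this
    have h4 : (0 : ℝ) ≤ ∏ p ∈ T, (p : ℝ) := prod_nonneg (fun p _ => Nat.cast_nonneg p)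
    have h5 : (0 : ℝ) ≤ x * ∏ p ∈ U, (1 - 1 / (p : ℝ)) := by positivity
    have h6 : |∑ n ∈ Icc 1 x, eps a B U n| ≤
        x * (∏ p ∈ U, (1 - 1 / (p : ℝ))) + ∏ p ∈ T, (p : ℝ) := by linarith
    have h7 : (∑ n ∈ Icc 1 x, ∏ p ∈ U, (-1 : ℝ) ^ cnt a B p n) ^ (2 * r) =
        |∑ n ∈ Icc 1 x, eps a B U n| ^ (2 * r) := by
      rw [Even.pow_abs (even_two_mul r)]
      rfl
    rw [h7]
    calc |∑ n ∈ Icc 1 x, eps a B U n| ^ (2 * r)
        ≤ (x * (∏ p ∈ U, (1 - 1 / (p : ℝ))) + ∏ p ∈ T, (p : ℝ)) ^ (2 * r) := by gcongr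
      _ ≤ 2 ^ (2 * r - 1) * ((x * ∏ p ∈ U, (1 - 1 / (p : ℝ))) ^ (2 * r) +
            (∏ p ∈ T, (p : ℝ)) ^ (2 * r)) := add_pow_le h5 h4 _
      _ ≤ 2 ^ (2 * r) * ((x * ∏ p ∈ U, (1 - 1 / (p : ℝ))) ^ (2 * r) +
            (∏ p ∈ T, (p : ℝ)) ^ (2 * r)) := by
          gcongr
          · norm_num
          · omega
      _ = _ := by rw [mul_pow, prod_pow]
  have hsumW : ∑ U ∈ T.powerset, W U = 1 := by
    have h := prod_add (fun p => mm P E p) (fun p => 1 - mm P E p) T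
    rw [hW]
    simp only
    rw [← h]
    apply prod_eq_one
    intro p _
    ring
  have hsumW2 : ∑ U ∈ T.powerset, W U * ∏ p ∈ U, (1 - 1 / (p : ℝ)) ^ (2 * r) ≤
      Real.exp (-(r * ∑ p ∈ T, mm P E p / p)) := by
    have h := prod_add (fun p => mm P E p * (1 - 1 / (p : ℝ)) ^ (2 * r)) (fun p => 1 - mm P E p) T
    have h2 : ∑ U ∈ T.powerset, W U * ∏ p ∈ U, (1 - 1 / (p : ℝ)) ^ (2 * r) =
        ∏ p ∈ T, (mm P E p * (1 - 1 / (p : ℝ)) ^ (2 * r) + (1 - mm P E p)) := by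
      rw [h]
      apply sum_congr rfl
      intro U _
      rw [hW]
      simp only
      rw [prod_mul_distrib]
      ring
    rw [h2]
    have h3 : Real.exp (-(r * ∑ p ∈ T, mm P E p / p)) =
        ∏ p ∈ T, Real.exp (-(r * (mm P E p / p))) := by
      rw [← Real.exp_sum, mul_sum, ← sum_neg_distrib]
    rw [h3]
    apply prod_le_prod
    · intro p hp
      have h0 := mm_nonneg (P := P) (E := E) p
      have h1 := mm_le_half (P := P) (E := E) p
      have h4 : (0 : ℝ) ≤ (1 - 1 / (p : ℝ)) ^ (2 * r) := (even_two_mul r).pow_nonneg _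
      have h5 := mul_nonneg h0 h4
      linarith
    · intro p hp
      have h0 := mm_nonneg (P := P) (E := E) p
      have h4 := one_sub_pow_le (hT p hp).pos (hTr p hp)
      have h5 := Real.one_sub_le_exp_neg (r * (mm P E p / p))
      refine le_trans ?_ h5
      have h6 := mul_le_mul_of_nonneg_left h4 h0
      have h7 : mm P E p * (1 - (r : ℝ) / p) = mm P E p - r * (mm P E p / p) := by ring
      linarith
  calc ∑ U ∈ T.powerset, W U * (∑ n ∈ Icc 1 x, ∏ p ∈ U, (-1 : ℝ) ^ cnt a B p n) ^ (2 * r)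
      ≤ ∑ U ∈ T.powerset, W U * (2 ^ (2 * r) * ((x : ℝ) ^ (2 * r) *
          (∏ p ∈ U, (1 - 1 / (p : ℝ)) ^ (2 * r)) + (∏ p ∈ T, (p : ℝ)) ^ (2 * r))) := by
        apply sum_le_sum
        intro U hU
        exact mul_le_mul_of_nonneg_left (hterm U hU) (hW0 U)
    _ = 2 ^ (2 * r) * ((x : ℝ) ^ (2 * r) *
          (∑ U ∈ T.powerset, W U * ∏ p ∈ U, (1 - 1 / (p : ℝ)) ^ (2 * r)) +
          (∏ p ∈ T, (p : ℝ)) ^ (2 * r) * ∑ U ∈ T.powerset, W U) := by
        rw [mul_sum, mul_sum, ← sum_add_distrib, mul_sum]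
        apply sum_congr rfl
        intro U _
        ring
    _ ≤ _ := by
        rw [hsumW, mul_one]
        gcongr

end Pool.RandomSigns
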