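import Pool.Agent.LibRS5.Crt

set_option autoImplicit false

/-!
# The moment inequality for random signs
-/

namespace Pool.RandomSigns

open Finset MeasureTheory ProbabilityTheory

/-- The random set `{p : ω ∈ E p}`. -/
def rnd {Ω : Type*} (E : ℕ → Set Ω) (ω : Ω) : Set ℕ := {p | ω ∈ E p}

/-- `min(q, 1-q)` for `q` the probability of `E p`. -/
noncomputable def mm {Ω : Type*} [MeasurableSpace Ω] (P : Measure Ω) (E : ℕ → Set Ω) (p : ℕ) : ℝ :=
  min (P.real (E p)) (1 - P.real (E p))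

section

variable {Ω : Type*} [MeasurableSpace Ω] {P : Measure Ω} [IsProbabilityMeasure P]
  {E : ℕ → Set Ω} 

lemma mm_nonneg (p : ℕ) : 0 ≤ mm P E p := by
  unfold mm
  exact le_min measureReal_nonneg (by linarith [measureReal_le_one (μ := P) (s := E p)])

lemma mm_le_half (p : ℕ) : mm P E p ≤ 1 / 2 := by
  unfold mm
  rcases le_total (P.real (E p)) (1 - P.real (E p)) with h | h
  · rw [min_eq_left h]; linarith
  · rw [min_eq_right h]; linarith

lemma sg_eq (p : ℕ) (ω : Ω) :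
    (sg (rnd E ω) p : ℝ) = 1 - 2 * (E p).indicator (fun _ => (1 : ℝ)) ω := by
  unfold sg rnd
  by_cases h : ω ∈ E p
  · simp [h]; norm_num
  · simp [h]

lemma sg_meas (hE : ∀ p, MeasurableSet (E p)) (p : ℕ) :
    Measurable (fun ω => (sg (rnd E ω) p : ℝ)) := by
  have h : (fun ω => (sg (rnd E ω) p : ℝ)) =
      fun ω => 1 - 2 * (E p).indicator (fun _ => (1 : ℝ)) ω := by
    funext ω
    exact sg_eq p ω
  rw [h]
  exact ((measurable_const.indicator (hE p)).const_mul 2).const_sub 1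

lemma sg_pow_cases (R : Set ℕ) (p V : ℕ) :
    (sg R p : ℝ) ^ V = if Even V then 1 else (sg R p : ℝ) := by
  split_ifs with h
  · rcases sg_cases R p with h1 | h1 <;> rw [h1]
    · simp
    · push_cast; exact h.neg_one_pow
  · rw [Nat.not_even_iff_odd] at h
    rcases sg_cases R p with h1 | h1 <;> rw [h1]
    · simp
    · push_cast; exact h.neg_one_pow

lemma int_sg (hE : ∀ p, MeasurableSet (E p)) (p : ℕ) :
    ∫ ω, (sg (rnd E ω) p : ℝ) ∂P = 1 - 2 * P.real (E p) := by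
  have h : (fun ω => (sg (rnd E ω) p : ℝ)) =
      fun ω => 1 - 2 * (E p).indicator (fun _ => (1 : ℝ)) ω := by
    funext ω
    exact sg_eq p ω
  rw [h, integral_sub (integrable_const _), integral_const_mul, integral_indicator_const _ (hE p)]
  · simp
  · exact ((integrable_const (1 : ℝ)).indicator (hE p)).const_mul 2

lemma abs_int_sg_pow (hE : ∀ p, MeasurableSet (E p)) (p V : ℕ) :
    |∫ ω, (sg (rnd E ω) p : ℝ) ^ V ∂P| ≤ mm P E p * (-1) ^ V + (1 - mm P E p) := by
  have h0 := mm_nonneg (P := P) (E := E) p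
  simp_rw [sg_pow_cases]
  by_cases h : Even V
  · simp only [h, if_true]
    rw [h.neg_one_pow]
    simp
  · simp only [h, if_false]
    rw [int_sg hE]
    rw [Nat.not_even_iff_odd] at h
    rw [h.neg_one_pow]
    unfold mm at h0 ⊢
    rcases le_total (P.real (E p)) (1 - P.real (E p)) with h1 | h1
    · rw [min_eq_left h1]
      rw [abs_of_nonneg (by linarith)]
      linarith
    · rw [min_eq_right h1]
      rw [abs_of_nonpos (by linarith)]
      linarith

lemma int_prod (hE : ∀ p, MeasurableSet (E p))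
    (hind : iIndepSet (fun p : Nat.Primes => E p) P) (Q : Finset ℕ) (hQ : ∀ p ∈ Q, p.Prime)
    (V : ℕ → ℕ) :
    ∫ ω, ∏ p ∈ Q, (sg (rnd E ω) p : ℝ) ^ V p ∂P =
      ∏ p ∈ Q, ∫ ω, (sg (rnd E ω) p : ℝ) ^ V p ∂P := by
  have h1 : iIndepFun (fun p : Nat.Primes => (E p).indicator (fun _ => (1 : ℝ))) P :=
    hind.iIndepFun_indicator
  have hginj : Function.Injective (fun i : Q => (⟨i.1, hQ i.1 i.2⟩ : Nat.Primes)) := by
    intro i j hij
    ext
    exact congrArg (fun q : Nat.Primes => (q : ℕ)) hij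
  have h2 : iIndepFun (fun (i : Q) => (E i).indicator (fun _ => (1 : ℝ))) P := h1.precomp hginj
  have h3 := h2.integral_fun_prod_comp (f := fun (i : Q) (t : ℝ) => (1 - 2 * t) ^ V i)
    (fun i => (measurable_const.indicator (hE i)).aemeasurable)
    (fun i => by
      apply Measurable.aestronglyMeasurable
      fun_prop)
  simp_rw [sg_eq]
  rw [← Finset.prod_coe_sort Q]
  rw [← h3]
  congr 1
  funext ω
  rw [← Finset.prod_coe_sort Q]

/-- Expansion of a moment. -/
lemma moment_le (hE : ∀ p, MeasurableSet (E p))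
    (hind : iIndepSet (fun p : Nat.Primes => E p) P) (Q T N : Finset ℕ) (hQ : ∀ p ∈ Q, p.Prime)
    (hTQ : T ⊆ Q) (w : ℕ → ℝ) (hw : ∀ n, |w n| ≤ 1) (c : ℕ → ℕ → ℕ) (k : ℕ) :
    ∫ ω, (∑ n ∈ N, w n * ∏ p ∈ Q, (sg (rnd E ω) p : ℝ) ^ c p n) ^ k ∂P ≤
      ∑ U ∈ T.powerset, (∏ p ∈ U, mm P E p) * (∏ p ∈ T \ U, (1 - mm P E p)) *
        (∑ n ∈ N, ∏ p ∈ U, (-1 : ℝ) ^ c p n) ^ k := by
  classical
  have hexp : ∀ g : ℕ → ℝ, (∑ n ∈ N, g n) ^ k =
      ∑ v ∈ Fintype.piFinset (fun _ : Fin k => N), ∏ i, g (v i) := by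
    intro g
    rw [← Finset.prod_univ_sum]
    simp
  simp_rw [hexp]
  have hv : ∀ v : Fin k → ℕ, ∀ ω : Ω,
      ∏ i, (w (v i) * ∏ p ∈ Q, (sg (rnd E ω) p : ℝ) ^ c p (v i)) =
      (∏ i, w (v i)) * ∏ p ∈ Q, (sg (rnd E ω) p : ℝ) ^ (∑ i, c p (v i)) := by
    intro v ω
    rw [prod_mul_distrib, prod_comm]
    congr 1
    apply prod_congr rfl
    intro p _
    rw [prod_pow_eq_pow_sum]
  simp_rw [hv]
  have hint : ∀ v : Fin k → ℕ, Integrable (fun ω => (∏ i, w (v i)) *
      ∏ p ∈ Q, (sg (rnd E ω) p : ℝ) ^ (∑ i, c p (v i))) P := by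
    intro v
    apply Integrable.const_mul
    apply Integrable.of_bound (C := 1)
    · apply Measurable.aestronglyMeasurable
      apply Finset.measurable_fun_prod
      intro p _
      exact (sg_meas hE p).pow_const _
    · filter_upwards with ω
      rw [norm_prod]
      apply prod_le_one (fun p _ => norm_nonneg _)
      intro p _
      rw [norm_pow]
      rcases sg_cases (rnd E ω) p with h | h <;> rw [h] <;> simp
  rw [integral_finsetSum _ (fun v _ => hint v)]
  have hR : ∑ U ∈ T.powerset, (∏ p ∈ U, mm P E p) * (∏ p ∈ T \ U, (1 - mm P E p)) *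
        ∑ v ∈ Fintype.piFinset (fun _ : Fin k => N), ∏ i, ∏ p ∈ U, (-1 : ℝ) ^ c p (v i) =
      ∑ v ∈ Fintype.piFinset (fun _ : Fin k => N),
        ∏ p ∈ T, (mm P E p * (-1) ^ (∑ i, c p (v i)) + (1 - mm P E p)) := by
    simp_rw [mul_sum]
    rw [sum_comm]
    apply sum_congr rfl
    intro v _
    rw [prod_add]
    apply sum_congr rfl
    intro U _
    rw [prod_comm, prod_mul_distrib]
    have : ∀ p ∈ U, ∏ i, (-1 : ℝ) ^ c p (v i) = (-1) ^ (∑ i, c p (v i)) := by
      intro p _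
      rw [prod_pow_eq_pow_sum]
    rw [prod_congr rfl this]
    ring
  rw [hR]
  apply sum_le_sum
  intro v _
  rw [integral_const_mul, int_prod hE hind Q hQ]
  have hle : ∀ p, |∫ ω, (sg (rnd E ω) p : ℝ) ^ (∑ i, c p (v i)) ∂P| ≤ 1 := by
    intro p
    refine (abs_int_sg_pow hE p _).trans ?_
    have h0 := mm_nonneg (P := P) (E := E) p
    have h1 := mm_le_half (P := P) (E := E) p
    rcases neg_one_pow_eq_or ℝ (∑ i, c p (v i)) with h | h <;> rw [h] <;> linarith
  calc (∏ i, w (v i)) * ∏ p ∈ Q, ∫ ω, (sg (rnd E ω) p : ℝ) ^ (∑ i, c p (v i)) ∂P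
      ≤ |(∏ i, w (v i)) * ∏ p ∈ Q, ∫ ω, (sg (rnd E ω) p : ℝ) ^ (∑ i, c p (v i)) ∂P| := le_abs_self _
    _ = (∏ i, |w (v i)|) * ∏ p ∈ Q, |∫ ω, (sg (rnd E ω) p : ℝ) ^ (∑ i, c p (v i)) ∂P| := by
      rw [abs_mul, abs_prod, abs_prod]
    _ ≤ 1 * ∏ p ∈ T, |∫ ω, (sg (rnd E ω) p : ℝ) ^ (∑ i, c p (v i)) ∂P| := by
      apply mul_le_mul
      · exact prod_le_one (fun i _ => abs_nonneg _) (fun i _ => hw _)
      · rw [← prod_sdiff hTQ]
        exact mul_le_of_le_one_left (prod_nonneg (fun p _ => abs_nonneg _))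
          (prod_le_one (fun p _ => abs_nonneg _) (fun p _ => hle p))
      · exact prod_nonneg (fun p _ => abs_nonneg _)
      · exact zero_le_one
    _ ≤ _ := by
      rw [one_mul]
      exact prod_le_prod (fun p _ => abs_nonneg _) (fun p _ => abs_int_sg_pow hE p _)

end

end Pool.RandomSigns
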