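import Pool.Agent.LibRS5.Master

set_option autoImplicit false

/-!
# Mean square and almost sure convergence
-/

namespace Pool.RandomSigns

open Finset MeasureTheory ProbabilityTheory Filter Topology

variable {Ω : Type*} [MeasurableSpace Ω] {P : Measure Ω} [IsProbabilityMeasure P]
  {E : ℕ → Set Ω}

lemma S_meas (hE : ∀ p, MeasurableSet (E p)) {a : ℕ} (ha : 0 < a) (B D : Finset ℕ) (x : ℕ) :
    Measurable (fun ω => (S (rnd E ω) a B D x : ℝ)) := by
  have hfac : ∀ ω, (S (rnd E ω) a B D x : ℝ) =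
      ∑ n ∈ Icc 1 x, (term ∅ a B D n : ℝ) *
        ∏ p ∈ (Icc 1 (a * x + B.sup id)).filter Nat.Prime, (sg (rnd E ω) p : ℝ) ^ cnt a B p n := by
    intro ω
    unfold S
    push_cast
    apply sum_congr rfl
    intro n hn
    rw [mem_Icc] at hn
    rw [term_factor (rnd E ω) ha B D (by omega : 0 < n)
      ((Icc 1 (a * x + B.sup id)).filter Nat.Prime) (fun p hp => (mem_filter.mp hp).2)]
    · push_cast
      rfl
    · intro b hb p hp
      rw [mem_filter, mem_Icc]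
      have hp' := Nat.mem_primeFactors.mp hp
      refine ⟨⟨hp'.1.one_lt.le, ?_⟩, hp'.1⟩
      have h1 : p ≤ a * n + b := Nat.le_of_dvd (by have := Nat.mul_pos ha (by omega : 0 < n); omega) hp'.2.1
      have h2 : b ≤ B.sup id := le_sup (f := id) hb
      have h3 : a * n ≤ a * x := Nat.mul_le_mul_left a hn.2
      omega
  simp_rw [hfac]
  apply Finset.measurable_fun_sum
  intro n _
  apply Measurable.const_mul
  apply Finset.measurable_fun_prod
  intro p _
  exact (sg_meas hE p).pow_const _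

lemma S_pow_int (hE : ∀ p, MeasurableSet (E p)) {a : ℕ} (ha : 0 < a) (B D : Finset ℕ) (x k : ℕ) :
    Integrable (fun ω => (S (rnd E ω) a B D x : ℝ) ^ k) P := by
  apply Integrable.of_bound (C := (x : ℝ) ^ k)
  · exact ((S_meas hE ha B D x).pow_const k).aestronglyMeasurable
  · filter_upwards with ω
    rw [norm_pow, Real.norm_eq_abs]
    have h := abs_S_le (rnd E ω) a B D x
    have h2 : |(S (rnd E ω) a B D x : ℝ)| ≤ x := by exact_mod_cast h
    gcongr

/-- The partial sums of `m_p / p` over the primes. -/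
noncomputable def wt (P : Measure Ω) (E : ℕ → Set Ω) (p : ℕ) : ℝ :=
  if p.Prime then mm P E p / p else 0

lemma wt_nonneg (p : ℕ) : 0 ≤ wt P E p := by
  unfold wt
  split_ifs
  · exact div_nonneg (mm_nonneg p) (Nat.cast_nonneg p)
  · exact le_refl 0

theorem mean_square (hE : ∀ p, MeasurableSet (E p))
    (hind : iIndepSet (fun p : Nat.Primes => E p) P) (hdiv : ¬ Summable (wt P E))
    {a : ℕ} (ha : 0 < a) {B : Finset ℕ} (hB : B.Nonempty) (D : Finset ℕ) :
    Tendsto (fun x : ℕ => ∫ ω, ((S (rnd E ω) a B D x : ℝ) / x) ^ 2 ∂P) atTop (𝓝 0) := by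
  rw [Metric.tendsto_atTop]
  intro ε hε
  set c : ℕ := a + B.sup id + 2 * B.card + 3 with hc
  have h1 := (not_summable_iff_tendsto_nat_atTop_of_nonneg (fun p => wt_nonneg (P := P) (E := E) p)).mp hdiv
  obtain ⟨L, hL⟩ : ∃ L : ℝ, 4 * Real.exp (-L) < ε / 2 := by
    refine ⟨Real.log (16 / ε), ?_⟩
    rw [Real.exp_neg, Real.exp_log (by positivity)]
    field_simp
    linarith
  obtain ⟨N, hN⟩ := (tendsto_atTop.mp h1 (L + ∑ p ∈ range c, wt P E p)).exists
  set T : Finset ℕ := (Ico c N).filter Nat.Prime with hT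
  have hTsum : L ≤ ∑ p ∈ T, mm P E p / p := by
    have h2 : ∑ p ∈ T, mm P E p / p = ∑ p ∈ Ico c N, wt P E p := by
      rw [hT, sum_filter]
      rfl
    rw [h2]
    rcases le_total c N with h3 | h3
    · have h4 := sum_range_add_sum_Ico (fun p => wt P E p) h3
      linarith
    · have h4 : ∑ p ∈ range N, wt P E p ≤ ∑ p ∈ range c, wt P E p :=
        sum_le_sum_of_subset_of_nonneg (range_mono h3) (fun p _ _ => wt_nonneg p)
      have h5 : 0 ≤ ∑ p ∈ Ico c N, wt P E p := sum_nonneg (fun p _ => wt_nonneg p)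
      linarith
  have hTp : ∀ p ∈ T, p.Prime := fun p hp => (mem_filter.mp hp).2
  have hTc : ∀ p ∈ T, c ≤ p := fun p hp => (mem_Ico.mp (mem_filter.mp hp).1).1
  set M : ℝ := ∏ p ∈ T, (p : ℝ) with hM
  obtain ⟨x0, hx0⟩ : ∃ x0 : ℕ, 8 * M ^ 2 / ε < x0 := exists_nat_gt _
  refine ⟨max 1 x0, fun x hx => ?_⟩
  have hx1 : 1 ≤ x := le_trans (le_max_left _ _) hx
  have hx2 : (x0 : ℝ) ≤ x := by exact_mod_cast le_trans (le_max_right _ _) hx
  have hxpos : (0 : ℝ) < x := by exact_mod_cast hx1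
  have hx1' : (1 : ℝ) ≤ x := by exact_mod_cast hx1
  have hm := master hE hind ha hB D T 1 hTp
    (fun p hp hd => by
      have := Nat.le_of_dvd ha hd
      have := hTc p hp
      omega)
    (fun p hp b hb => by
      have h2 : b ≤ B.sup id := le_sup (f := id) hb
      have := hTc p hp
      omega)
    (fun p hp => by have := hTc p hp; omega)
    (fun p hp => by have := hTc p hp; omega) x
  have h5 : ∫ ω, ((S (rnd E ω) a B D x : ℝ) / x) ^ 2 ∂P =
      (∫ ω, (S (rnd E ω) a B D x : ℝ) ^ 2 ∂P) / (x : ℝ) ^ 2 := by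
    simp_rw [div_pow]
    rw [integral_div]
  have h6 : 0 ≤ ∫ ω, ((S (rnd E ω) a B D x : ℝ) / x) ^ 2 ∂P :=
    integral_nonneg (fun ω => sq_nonneg _)
  rw [Real.dist_eq, sub_zero, abs_of_nonneg h6, h5]
  have h7 : Real.exp (-(1 * ∑ p ∈ T, mm P E p / p)) ≤ Real.exp (-L) := by
    apply Real.exp_le_exp.mpr
    linarith
  simp only [mul_one, Nat.cast_one] at hm
  rw [div_lt_iff₀ (by positivity)]
  have h8 : 8 * M ^ 2 < ε * x := by
    rw [div_lt_iff₀ hε] at hx0
    nlinarith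
  have h9 : ε * x ≤ ε * x ^ 2 := by nlinarith
  have h10 : (x : ℝ) ^ 2 * Real.exp (-(1 * ∑ p ∈ T, mm P E p / p)) ≤ x ^ 2 * Real.exp (-L) := by
    gcongr
  have h11 : 4 * Real.exp (-L) * x ^ 2 < ε / 2 * x ^ 2 := by gcongr
  have h12 : (2 : ℝ) ^ 2 = 4 := by norm_num
  rw [h12] at hm
  nlinarith

/-- Interpolation from the numbers `2^i t`. -/
lemma interp (F : ℕ → ℝ) (hF : ∀ x y, x ≤ y → |F y - F x| ≤ (y : ℝ) - x)
    (h : ∀ t : ℕ, 0 < t → Tendsto (fun i : ℕ => F (2 ^ i * t) / ((2 ^ i * t : ℕ) : ℝ)) atTop (𝓝 0)) :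
    Tendsto (fun x : ℕ => F x / x) atTop (𝓝 0) := by
  rw [Metric.tendsto_atTop]
  intro ε hε
  obtain ⟨s, hs⟩ : ∃ s : ℕ, (1 / 2 : ℝ) ^ s < ε / 2 :=
    exists_pow_lt_of_lt_one (by positivity) (by norm_num)
  have h1 : ∀ t : ℕ, ∃ I : ℕ, 0 < t → ∀ i ≥ I,
      |F (2 ^ i * t)| ≤ ε / 4 * ((2 ^ i * t : ℕ) : ℝ) := by
    intro t
    rcases Nat.eq_zero_or_pos t with ht | ht
    · exact ⟨0, fun h => by omega⟩
    · obtain ⟨I, hI⟩ := (Metric.tendsto_atTop.mp (h t ht)) (ε / 4) (by positivity)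
      refine ⟨I, fun _ i hi => ?_⟩
      have h2 := hI i hi
      have h3 : (0 : ℝ) < ((2 ^ i * t : ℕ) : ℝ) := by
        have : 0 < 2 ^ i * t := by positivity
        exact_mod_cast this
      rw [Real.dist_eq, sub_zero, abs_div, abs_of_pos h3, div_lt_iff₀ h3] at h2
      exact h2.le
  choose I hI using h1
  set I0 := (range (2 ^ (s + 1))).sup I with hI0
  refine ⟨2 ^ (I0 + s + 1), fun x hx => ?_⟩
  have hxpos : 0 < x := lt_of_lt_of_le (by positivity) hx
  set l := Nat.log 2 x with hl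
  have hl1 : 2 ^ l ≤ x := Nat.pow_log_le_self 2 (by omega)
  have hl2 : x < 2 ^ (l + 1) := Nat.lt_pow_succ_log_self (by norm_num) x
  have hl3 : I0 + s + 1 ≤ l := by
    by_contra hcon
    push Not at hcon
    have h2 : 2 ^ (l + 1) ≤ 2 ^ (I0 + s + 1) := Nat.pow_le_pow_right (by norm_num) (by omega)
    omega
  set i := l - s with hi
  have hil : i + s = l := by omega
  set t := x / 2 ^ i with ht
  have hpi : 0 < 2 ^ i := by positivity
  have ht1 : 2 ^ s ≤ t := by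
    rw [ht, Nat.le_div_iff_mul_le hpi, ← pow_add]
    rw [add_comm, hil]
    exact hl1
  have ht2 : t < 2 ^ (s + 1) := by
    rw [ht, Nat.div_lt_iff_lt_mul hpi, ← pow_add]
    have : s + 1 + i = l + 1 := by omega
    rw [this]
    exact hl2
  have ht0 : 0 < t := lt_of_lt_of_le (by positivity) ht1
  have hxt : 2 ^ i * t ≤ x := Nat.mul_div_le x (2 ^ i)
  have hxt2 : x < 2 ^ i * t + 2 ^ i := by
    have := Nat.lt_div_mul_add (a := x) hpi
    rw [ht]
    linarith
  have h2 := hI t ht0 i (by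
    have h3 : I t ≤ I0 := le_sup (f := I) (mem_range.mpr ht2)
    omega)
  have h3 := hF _ _ hxt
  have hx' : (0 : ℝ) < x := by exact_mod_cast hxpos
  have hxt' : ((2 ^ i * t : ℕ) : ℝ) ≤ x := by exact_mod_cast hxt
  have hxt2' : (x : ℝ) < ((2 ^ i * t : ℕ) : ℝ) + 2 ^ i := by exact_mod_cast hxt2
  have h4 : (2 : ℝ) ^ i ≤ (1 / 2) ^ s * x := by
    have h5 : (2 : ℝ) ^ l ≤ x := by exact_mod_cast hl1
    rw [← hil, pow_add] at h5
    have h6 : (2 : ℝ) ^ i = (1 / 2) ^ s * (2 ^ i * 2 ^ s) := by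
      have h8 : (1 / 2 : ℝ) ^ s * 2 ^ s = 1 := by rw [← mul_pow]; norm_num
      calc (2 : ℝ) ^ i = 2 ^ i * ((1 / 2 : ℝ) ^ s * 2 ^ s) := by rw [h8, mul_one]
        _ = _ := by ring
    rw [h6]
    gcongr
  have h5 : (1 / 2 : ℝ) ^ s * x ≤ ε / 2 * x := by gcongr
  rw [Real.dist_eq, sub_zero, abs_div, abs_of_pos hx', div_lt_iff₀ hx']
  have h6 : |F x| ≤ |F (2 ^ i * t)| + |F x - F (2 ^ i * t)| := by
    have := abs_add_le (F (2 ^ i * t)) (F x - F (2 ^ i * t))
    simpa using this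
  have h7 : ε / 4 * ((2 ^ i * t : ℕ) : ℝ) ≤ ε / 4 * x := by gcongr
  have h8 : 0 < ε * x := by positivity
  linarith

end Pool.RandomSigns
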